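import Mathlib

/-!
Core interval argument for the maps `x ↦ β x + α mod 1` in the coordinate in which the left branch is
`x ↦ β x` and the right branch is `x ↦ β x - 1`.
-/

set_option autoImplicit false

open Set

namespace Pool.Agent.R199.Beta

/-- A closed set of `[q, 1 + q]` which is invariant (on intervals) under the two branches. -/
structure Inv (q β : ℝ) (Y : Set ℝ) : Prop where
  closed : IsClosed Y
  sub : Y ⊆ Icc q (1 + q)
  left : ∀ x y, x < y → Icc x y ⊆ Y → y * β ≤ 1 + q → Icc (β * x) (β * y) ⊆ Y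
  right : ∀ x y, x < y → Icc x y ⊆ Y → 1 + q ≤ x * β → Icc (β * x - 1) (β * y - 1) ⊆ Y

variable {q β : ℝ} {Y : Set ℝ}

/-- two overlapping intervals -/
lemma Icc_union_sub {a b c d : ℝ} (h1 : Icc a b ⊆ Y) (h2 : Icc c d ⊆ Y) (h : c ≤ b) :
    Icc a d ⊆ Y := by
  intro x hx
  rcases le_total x b with hb | hb
  · exact h1 ⟨hx.1, hb⟩
  · exact h2 ⟨h.trans hb, hx.2⟩

lemma orb0 {q β P : ℝ} (hq0 : 0 ≤ q) (hq1 : q * β ≤ 1) (h : P * β ≤ 1 + β) :
    P * q * β ≤ 1 + q := by
  have h1 : (P * β - 1) * q ≤ β * q := mul_le_mul_of_nonneg_right (by linarith) hq0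
  linarith [mul_comm β q, show P * q * β = (P * β - 1) * q + q by ring]

lemma orb1 {q β P : ℝ} (hβ0 : 0 < β) (hq0 : 0 ≤ q) (hq1 : q * β ≤ 1) (hP : 0 ≤ P)
    (h : P * β ^ 3 ≤ 1 + β) : P * (β * (1 + q) - 1) * β ≤ 1 + q := by
  have key : (P * β ^ 2 - 1) * (1 + q) ≤ P * β := by
    rcases le_or_gt (P * β ^ 2 - 1) 0 with h1 | h1
    · exact (mul_nonpos_of_nonpos_of_nonneg h1 (by linarith)).trans (by positivity)
    · have h2 : (P * β ^ 2 - 1) * (β * (1 + q)) ≤ (P * β ^ 2 - 1) * (β + 1) :=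
        mul_le_mul_of_nonneg_left (by linarith [mul_comm β q, mul_add β 1 q]) h1.le
      have h3 : (P * β ^ 2 - 1) * (1 + q) * β ≤ P * β * β := by
        have e1 : (P * β ^ 2 - 1) * (β * (1 + q)) = (P * β ^ 2 - 1) * (1 + q) * β := by ring
        have e2 : (P * β ^ 2 - 1) * (β + 1) = P * β * β + (P * β ^ 3 - (1 + β)) := by ring
        linarith
      exact le_of_mul_le_mul_right h3 hβ0
  have e : P * (β * (1 + q) - 1) * β = (P * β ^ 2 - 1) * (1 + q) - P * β + (1 + q) := by ring
  linarith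

theorem core (hβ1 : 1 < β) (hβ2 : β ^ 2 ≤ 2) (hq0 : 0 ≤ q) (hq1 : q * β ≤ 1) (hY : Inv q β Y)
    (hne : ∃ x y, x < y ∧ Icc x y ⊆ Y) : Icc q (1 + q) ⊆ Y := by
  have hβ0 : 0 < β := by linarith
  by_contra hcon
  -- the supremum of the lengths of the intervals in `Y`
  set S : Set ℝ := {t | ∃ x y, x < y ∧ Icc x y ⊆ Y ∧ t = y - x} with hS
  have hSne : S.Nonempty := by
    obtain ⟨x, y, hxy, h⟩ := hne
    exact ⟨y - x, x, y, hxy, h, rfl⟩
  have hSb : ∀ t ∈ S, t ≤ 1 := by
    rintro t ⟨x, y, hxy, h, rfl⟩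
    have h1 := hY.sub (h ⟨le_rfl, hxy.le⟩)
    have h2 := hY.sub (h ⟨hxy.le, le_rfl⟩)
    linarith [h1.1, h2.2]
  set m := sSup S with hm
  have hSm : ∀ x y, x < y → Icc x y ⊆ Y → y - x ≤ m := fun x y hxy h =>
    le_csSup ⟨1, fun t ht => hSb t ht⟩ ⟨x, y, hxy, h, rfl⟩
  have hmpos : 0 < m := by
    obtain ⟨x, y, hxy, h⟩ := hne
    linarith [hSm x y hxy h]
  obtain ⟨t, ⟨x₀, y₀, hxy₀, h₀, rfl⟩, ht⟩ : ∃ t ∈ S, m / β < t :=
    exists_lt_of_lt_csSup hSne (by rw [div_lt_iff₀ hβ0]; nlinarith)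
  set c := (1 + q) / β with hc
  have hcβ : c * β = 1 + q := by rw [hc]; field_simp
  have hcβ' : β * c = 1 + q := by rw [mul_comm]; exact hcβ
  have hlong : ∀ x y, x < y → Icc x y ⊆ Y → m / β < y - x → x < c ∧ c < y := by
    intro x y hxy h hlt
    rw [div_lt_iff₀ hβ0] at hlt
    constructor
    · by_contra hxc
      push Not at hxc
      have h1 := hSm _ _ (by nlinarith) (hY.right x y hxy h (by nlinarith))
      nlinarith
    · by_contra hyc
      push Not at hyc
      have h1 := hSm _ _ (by nlinarith) (hY.left x y hxy h (by nlinarith))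
      nlinarith
  obtain ⟨hx₀, hy₀⟩ := hlong x₀ y₀ hxy₀ h₀ ht
  -- the component of `c`
  set A : Set ℝ := {x | x ≤ c ∧ Icc x c ⊆ Y} with hA
  set B : Set ℝ := {y | c ≤ y ∧ Icc c y ⊆ Y} with hB
  have hAx : x₀ ∈ A := ⟨hx₀.le, (Icc_subset_Icc_right hy₀.le).trans h₀⟩
  have hBy : y₀ ∈ B := ⟨hy₀.le, (Icc_subset_Icc_left hx₀.le).trans h₀⟩
  have hAb : ∀ x ∈ A, q ≤ x := fun x hx => (hY.sub (hx.2 ⟨le_rfl, hx.1⟩)).1
  have hBb : ∀ y ∈ B, y ≤ 1 + q := fun y hy => (hY.sub (hy.2 ⟨hy.1, le_rfl⟩)).2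
  set a := sInf A with ha
  set b := sSup B with hb
  have hax₀ : a ≤ x₀ := csInf_le ⟨q, fun x hx => hAb x hx⟩ hAx
  have hby₀ : y₀ ≤ b := le_csSup ⟨1 + q, fun y hy => hBb y hy⟩ hBy
  have hac : a < c := hax₀.trans_lt hx₀
  have hcb : c < b := hy₀.trans_le hby₀
  have hab : a < b := hac.trans hcb
  have hJ1 : Icc a c ⊆ Y := by
    intro x hx
    rcases hx.1.eq_or_lt with h | h
    · rw [← h]
      -- `a` is a limit of points of `Y`
      have h1 : a ∈ closure Y := by
        rw [Metric.mem_closure_iff]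
        intro ε hε
        obtain ⟨z, hz, hz2⟩ := exists_lt_of_csInf_lt ⟨x₀, hAx⟩ (show sInf A < a + ε by linarith)
        refine ⟨z, hz.2 ⟨le_rfl, hz.1⟩, ?_⟩
        have h3 : a ≤ z := csInf_le ⟨q, fun x hx => hAb x hx⟩ hz
        rw [Real.dist_eq, abs_sub_comm, abs_of_nonneg (by linarith)]
        linarith
      rwa [hY.closed.closure_eq] at h1
    · obtain ⟨z, hz, hz2⟩ := exists_lt_of_csInf_lt ⟨x₀, hAx⟩ (show sInf A < x from h)
      exact hz.2 ⟨hz2.le, hx.2⟩
  have hJ2 : Icc c b ⊆ Y := by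
    intro x hx
    rcases hx.2.eq_or_lt with h | h
    · rw [h]
      have h1 : b ∈ closure Y := by
        rw [Metric.mem_closure_iff]
        intro ε hε
        obtain ⟨z, hz, hz2⟩ := exists_lt_of_lt_csSup ⟨y₀, hBy⟩ (show b - ε < sSup B by linarith)
        refine ⟨z, hz.2 ⟨hz.1, le_rfl⟩, ?_⟩
        have h3 : z ≤ b := le_csSup ⟨1 + q, fun y hy => hBb y hy⟩ hz
        rw [Real.dist_eq, abs_of_nonneg (by linarith)]
        linarith
      rwa [hY.closed.closure_eq] at h1
    · obtain ⟨z, hz, hz2⟩ := exists_lt_of_lt_csSup ⟨y₀, hBy⟩ (show x < sSup B from h)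
      exact hz.2 ⟨hx.1, hz2.le⟩
  have hJ : Icc a b ⊆ Y := Icc_union_sub hJ1 hJ2 le_rfl
  -- maximality
  have hmax : ∀ x y, x ≤ y → Icc x y ⊆ Y → x ≤ b → a ≤ y → a ≤ x ∧ y ≤ b := by
    intro x y hxy h hxb hay
    constructor
    · by_contra hlt
      push Not at hlt
      have h1 : x ∈ A := ⟨hlt.le.trans hac.le, Icc_union_sub h hJ1 hay⟩
      exact absurd (csInf_le ⟨q, fun x hx => hAb x hx⟩ h1) (not_le.2 hlt)
    · by_contra hlt
      push Not at hlt
      have h1 : y ∈ B := ⟨hcb.le.trans hlt.le, Icc_union_sub hJ2 h hxb⟩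
      exact absurd (le_csSup ⟨1 + q, fun y hy => hBb y hy⟩ h1) (not_le.2 hlt)
  have hmab : m = b - a := by
    apply le_antisymm _ (hSm a b hab hJ)
    by_contra hlt
    push Not at hlt
    obtain ⟨t, ⟨x, y, hxy, h, rfl⟩, ht⟩ := exists_lt_of_lt_csSup hSne
      (show max (m / β) (b - a) < m from max_lt (by rw [div_lt_iff₀ hβ0]; nlinarith) hlt)
    obtain ⟨h1, h2⟩ := hlong x y hxy h ((le_max_left _ _).trans_lt ht)
    obtain ⟨h3, h4⟩ := hmax x y hxy.le h (h1.le.trans hcb.le) (hac.le.trans h2.le)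
    linarith [(le_max_right (m / β) (b - a)).trans_lt ht]
  have hlen : ∀ x y, x < y → Icc x y ⊆ Y → y - x ≤ b - a := fun x y hxy h => by
    rw [← hmab]
    exact hSm x y hxy h
  -- the components of the two ends
  have hqa : q ≤ a := (hY.sub (hJ ⟨le_rfl, hab.le⟩)).1
  have hb1 : b ≤ 1 + q := (hY.sub (hJ ⟨hab.le, le_rfl⟩)).2
  have hL0 : Icc q (β * b - 1) ⊆ Y := by
    have := hY.right c b hcb hJ2 (by linarith)
    rwa [hcβ', show (1 : ℝ) + q - 1 = q by ring] at this
  have hR0 : Icc (β * a) (1 + q) ⊆ Y := by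
    have := hY.left a c hac hJ1 (by linarith)
    rwa [hcβ'] at this
  have hLlt : q < β * b - 1 := by nlinarith
  have hRlt : β * a < 1 + q := by nlinarith
  have hβq : β * q < c := by
    rw [hc, lt_div_iff₀ hβ0]
    nlinarith
  set γ := β * (1 + q) - 1 with hγ
  have hLmax : ∃ lam, β * b - 1 ≤ lam ∧ Icc q lam ⊆ Y ∧ ∀ y, Icc q y ⊆ Y → q ≤ y → y ≤ lam := by
    set L : Set ℝ := {y | q ≤ y ∧ Icc q y ⊆ Y} with hLdef
    have hbdd : ∀ y ∈ L, y ≤ 1 + q := fun y hy => (hY.sub (hy.2 ⟨hy.1, le_rfl⟩)).2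
    have hmem : β * b - 1 ∈ L := ⟨hLlt.le, hL0⟩
    refine ⟨sSup L, le_csSup ⟨1 + q, fun y hy => hbdd y hy⟩ hmem, ?_, fun y h1 h2 =>
      le_csSup ⟨1 + q, fun y hy => hbdd y hy⟩ ⟨h2, h1⟩⟩
    intro x hx
    rcases hx.2.eq_or_lt with h | h
    · rw [h]
      have h1 : sSup L ∈ closure Y := by
        rw [Metric.mem_closure_iff]
        intro ε hε
        obtain ⟨z, hz, hz2⟩ := exists_lt_of_lt_csSup ⟨_, hmem⟩
          (show sSup L - ε < sSup L by linarith)
        refine ⟨z, hz.2 ⟨hz.1, le_rfl⟩, ?_⟩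
        have h3 : z ≤ sSup L := le_csSup ⟨1 + q, fun y hy => hbdd y hy⟩ hz
        rw [Real.dist_eq, abs_of_nonneg (by linarith)]
        linarith
      rwa [hY.closed.closure_eq] at h1
    · obtain ⟨z, hz, hz2⟩ := exists_lt_of_lt_csSup ⟨_, hmem⟩ h
      exact hz.2 ⟨hx.1, hz2.le⟩
  obtain ⟨lam, hlamb, hlamY, hlammax⟩ := hLmax
  have hqlam : q < lam := hLlt.trans_le hlamb
  -- Step 3
  have hlama : lam < a := by
    by_contra h
    push Not at h
    have h1 := (hmax q lam hqlam.le hlamY (hqa.trans hab.le) h).1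
    have h2 : a = q := le_antisymm h1 hqa
    rw [h2] at hJ hR0
    exact hcon (Icc_union_sub hJ hR0 (hβq.le.trans hcb.le))
  have hbR : b < β * a := by
    by_contra h
    push Not at h
    have h1 := (hmax (β * a) (1 + q) hRlt.le hR0 h (by linarith)).2
    have h2 : b = 1 + q := le_antisymm hb1 h1
    have h3 : γ ≤ lam := by
      rw [hγ, ← h2]
      exact hlamb
    have h4 : Icc (β * q) (β * lam) ⊆ Y := hY.left q lam hqlam hlamY (by nlinarith)
    have h5 : Icc q (β * lam) ⊆ Y := Icc_union_sub hlamY h4 (by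
      refine le_trans ?_ h3
      rw [hγ]
      linarith)
    have h6 := hlammax _ h5 (by nlinarith)
    nlinarith
  have hbc : b < 1 + q := hbR.trans hRlt
  -- orbits
  obtain ⟨K, hK2, hK1, hK⟩ : ∃ K : ℕ, 2 ≤ K ∧ β ^ K ≤ 1 + β ∧ 1 + β < β ^ (K + 1) := by
    obtain ⟨n, hn⟩ := pow_unbounded_of_one_lt (1 + β) hβ1
    classical
    have hex : ∃ n, 1 + β < β ^ n := ⟨n, hn⟩
    have h1 := Nat.find_spec hex
    have h2 : ∀ k, k ≤ 2 → ¬ 1 + β < β ^ k := by
      intro k hk
      have : β ^ k ≤ β ^ 2 := pow_le_pow_right₀ hβ1.le hk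
      intro h
      linarith
    have h3 : 2 < Nat.find hex := by
      by_contra h
      push Not at h
      exact h2 _ h h1
    obtain ⟨K, hK⟩ : ∃ K, Nat.find hex = K + 1 := ⟨Nat.find hex - 1, by omega⟩
    refine ⟨K, by omega, ?_, by rw [← hK]; exact h1⟩
    exact not_lt.1 (Nat.find_min hex (by omega))
  have hpow : ∀ k, k ≤ K → β ^ k ≤ 1 + β := fun k hk => (pow_le_pow_right₀ hβ1.le hk).trans hK1
  have hpos : ∀ k : ℕ, 0 < β ^ k := fun k => pow_pos hβ0 k
  -- the orbit of the left end stays left of `c` up to time `K - 1`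
  have horb0 : ∀ i, i + 1 ≤ K → β ^ i * q ≤ c := by
    intro i hi
    rw [hc, le_div_iff₀ hβ0]
    have h1 := hpow (i + 1) hi
    rw [pow_succ] at h1
    exact orb0 hq0 hq1 h1
  -- the orbit of the right end
  have horb1 : ∀ j, j + 3 ≤ K → β ^ j * γ ≤ c := by
    intro j hj
    rw [hc, le_div_iff₀ hβ0, hγ]
    have h1 := hpow (j + 3) hj
    rw [pow_add] at h1
    exact orb1 hβ0 hq0 hq1 (hpos j).le h1
  -- the intervals starting at the right end
  set σ := β * (β * a) - 1 with hσ
  have hR1 : Icc σ γ ⊆ Y := hY.right (β * a) (1 + q) hRlt hR0 (by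
    have h1 : c * β ≤ β * a * β := mul_le_mul_of_nonneg_right (hcb.le.trans hbR.le) hβ0.le
    linarith)
  have hγσ : γ - σ = β ^ 2 * (c - a) := by
    rw [hγ, hσ, ← hcβ']
    ring
  have hcapos : 0 < c - a := by linarith
  have hσγ : σ < γ := by
    have : 0 < β ^ 2 * (c - a) := by positivity
    linarith
  have hRY : ∀ j, j + 2 ≤ K → Icc (β ^ j * σ) (β ^ j * γ) ⊆ Y := by
    intro j
    induction j with
    | zero =>
      intro _
      rw [pow_zero, one_mul, one_mul]
      exact hR1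
    | succ j ih =>
      intro hj
      have h1 := hY.left _ _ (mul_lt_mul_of_pos_left hσγ (hpos j)) (ih (by omega)) (by
        have h2 := horb1 j (by omega)
        rw [hc, le_div_iff₀ hβ0] at h2
        exact h2)
      rw [pow_succ', mul_assoc, mul_assoc]
      exact h1
  have hRa : ∀ j, j + 3 ≤ K → β ^ j * γ < a := by
    intro j hj
    by_contra h
    push Not at h
    have h1 := horb1 j hj
    have h2 := mul_lt_mul_of_pos_left hσγ (hpos j)
    obtain ⟨h3, -⟩ := hmax _ _ h2.le (hRY j (by omega)) (by linarith) h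
    have h4 : β ^ j * γ - β ^ j * σ = β ^ (j + 2) * (c - a) := by
      rw [← mul_sub, hγσ, pow_add]
      ring
    have h5 : 1 < β ^ (j + 2) := one_lt_pow₀ hβ1 (by omega)
    have h6 : (c - a) * 1 < (c - a) * β ^ (j + 2) := mul_lt_mul_of_pos_left h5 hcapos
    linarith [mul_comm (β ^ (j + 2)) (c - a)]
  have hRK : β ^ K * (c - a) ≤ b - a := by
    obtain ⟨k, rfl⟩ : ∃ k, K = k + 2 := ⟨K - 2, by omega⟩
    have h1 := hlen _ _ (mul_lt_mul_of_pos_left hσγ (hpos k)) (hRY k le_rfl)
    have h4 : β ^ k * γ - β ^ k * σ = β ^ (k + 2) * (c - a) := by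
      rw [← mul_sub, hγσ, pow_add]
      ring
    linarith
  -- the intervals starting at the left end
  have hlamq : β * (b - c) ≤ lam - q := by
    have : β * (b - c) = β * b - (1 + q) := by rw [mul_sub, hcβ']
    linarith
  have hLY : ∀ i, (∀ k, k < i → β ^ k * lam < a) → Icc (β ^ i * q) (β ^ i * lam) ⊆ Y := by
    intro i
    induction i with
    | zero =>
      intro _
      rw [pow_zero, one_mul, one_mul]
      exact hlamY
    | succ i ih =>
      intro hi
      have h1 := hY.left _ _ (mul_lt_mul_of_pos_left hqlam (hpos i)) (ih fun k hk => hi k (by omega))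
        (by
          have h2 := hi i (by omega)
          have h3 : β ^ i * lam * β ≤ c * β := mul_le_mul_of_nonneg_right (by linarith) hβ0.le
          linarith)
      rw [pow_succ', mul_assoc, mul_assoc]
      exact h1
  have hLlen : ∀ i, (∀ k, k < i → β ^ k * lam < a) → β ^ (i + 1) * (b - c) ≤ b - a := by
    intro i hi
    have h1 := hlen _ _ (mul_lt_mul_of_pos_left hqlam (hpos i)) (hLY i hi)
    have h2 : β ^ (i + 1) * (b - c) ≤ β ^ i * (lam - q) := by
      rw [pow_succ, mul_assoc]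
      exact mul_le_mul_of_nonneg_left hlamq (hpos i).le
    have h3 : β ^ i * (lam - q) = β ^ i * lam - β ^ i * q := by ring
    linarith
  by_cases hcase : ∀ i, i + 1 ≤ K → β ^ i * lam < a
  · -- no return before time `K`
    have h1 := hLlen K fun k hk => hcase k (by omega)
    have h2 : β ^ (K + 1) * (b - a) ≤ (1 + β) * (b - a) := by
      have e : β ^ (K + 1) * (b - a) = β ^ (K + 1) * (b - c) + β * (β ^ K * (c - a)) := by
        rw [pow_succ]
        ring
      have h3 : β * (β ^ K * (c - a)) ≤ β * (b - a) := mul_le_mul_of_nonneg_left hRK hβ0.le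
      linarith
    have h4 := le_of_mul_le_mul_right h2 (by linarith)
    linarith
  · push Not at hcase
    classical
    obtain ⟨l, ⟨hlK, hla⟩, hlmin⟩ : ∃ l, (l + 1 ≤ K ∧ a ≤ β ^ l * lam) ∧
        ∀ k, k < l → ¬ (k + 1 ≤ K ∧ a ≤ β ^ k * lam) :=
      ⟨Nat.find hcase, Nat.find_spec hcase, fun k hk => Nat.find_min hcase hk⟩
    have hlt : ∀ k, k < l → β ^ k * lam < a := by
      intro k hk
      have := hlmin k hk
      push Not at this
      exact this (by omega)
    have hl0 : l ≠ 0 := by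
      rintro rfl
      rw [pow_zero, one_mul] at hla
      linarith
    have h1 := horb0 l (by omega)
    obtain ⟨h2, h3⟩ := hmax _ _ (mul_lt_mul_of_pos_left hqlam (hpos l)).le (hLY l hlt)
      (by linarith) hla
    have hγq : β ^ 2 * q ≤ γ := by
      have h4 : (β - 1) * (q * β) ≤ (β - 1) * 1 := mul_le_mul_of_nonneg_left hq1 (by linarith)
      have e : γ - β ^ 2 * q = (β - 1) * 1 - (β - 1) * (q * β) := by
        rw [hγ]
        ring
      linarith
    rcases Nat.lt_or_ge l 2 with hl | hl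
    · -- `l = 1`
      have hl1 : l = 1 := by omega
      rw [hl1, pow_one] at h2 h3
      have hγa : a ≤ γ := by
        have h4 : β * q ≤ β ^ 2 * q := by
          have : 0 ≤ (β ^ 2 - β) * q := mul_nonneg (by nlinarith) hq0
          linarith [sub_mul (β ^ 2) β q]
        linarith
      rcases le_or_gt γ b with hγb | hγb
      · obtain ⟨h5, -⟩ := hmax σ γ hσγ.le hR1 (by linarith) hγa
        -- `a ≤ β² a - 1`
        have h6 : 1 ≤ a * (β ^ 2 - 1) := by
          have : σ = a * (β ^ 2 - 1) + a - 1 := by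
            rw [hσ]
            ring
          linarith
        have h7 : a ≤ 1 := by linarith [mul_comm β q]
        have h8 : 0 < β ^ 2 - 1 := by
          have : 1 < β ^ 2 := one_lt_pow₀ hβ1 (by norm_num)
          linarith
        have h9 : a * (β ^ 2 - 1) ≤ 1 * (β ^ 2 - 1) := mul_le_mul_of_nonneg_right h7 h8.le
        have h10 : β ^ 2 = 2 := by linarith
        have h11 : a = 1 := by
          rw [h10] at h6
          linarith
        have h12 : β ≤ b := by
          have : γ = β + β * q - 1 := by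
            rw [hγ]
            ring
          linarith
        have h13 : β * β ≤ β * b := mul_le_mul_of_nonneg_left h12 hβ0.le
        have h14 : β * β = 2 := by rw [← h10]; ring
        linarith
      · have h5 : b < σ := by
          by_contra h
          push Not at h
          have := (hmax σ γ hσγ.le hR1 h hγa).2
          linarith
        have h6 := hY.right σ γ hσγ hR1 (by
          have h7 : c * β ≤ σ * β := mul_le_mul_of_nonneg_right (by linarith) hβ0.le
          linarith)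
        have h7 := hlen _ _ (by
          have := mul_lt_mul_of_pos_left hσγ hβ0
          linarith) h6
        have h8 : β * γ - 1 - (β * σ - 1) = β ^ 3 * (c - a) := by
          have : β * γ - 1 - (β * σ - 1) = β * (γ - σ) := by ring
          rw [this, hγσ]
          ring
        have h9 := hLlen 1 fun k hk => hlt k (by omega)
        have h10 : β ^ 3 * (b - a) ≤ (1 + β) * (b - a) := by
          have e : β ^ 3 * (b - a) = β * (β ^ (1 + 1) * (b - c)) + β ^ 3 * (c - a) := by ring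
          have h11 : β * (β ^ (1 + 1) * (b - c)) ≤ β * (b - a) :=
            mul_le_mul_of_nonneg_left h9 hβ0.le
          linarith
        have h11 := le_of_mul_le_mul_right h10 (by linarith)
        have h12 : 3 ≤ K := by
          by_contra h
          have : K = 2 := by omega
          rw [this] at hK
          norm_num at hK
          linarith
        have h13 := horb1 0 (by omega)
        rw [pow_zero, one_mul] at h13
        linarith
    · obtain ⟨j, rfl⟩ : ∃ j, l = j + 2 := ⟨l - 2, by omega⟩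
      have h4 := hRa j (by omega)
      have h5 : β ^ (j + 2) * q ≤ β ^ j * γ := by
        have : β ^ (j + 2) * q = β ^ j * (β ^ 2 * q) := by rw [pow_add]; ring
        rw [this]
        exact mul_le_mul_of_nonneg_left hγq (hpos j).le
      linarith

end Pool.Agent.R199.Beta
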