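import Pool.Agent.R199.Beta1

set_option autoImplicit false

open Set

namespace Pool.Agent.R199.Beta

variable {q β : ℝ}

lemma Icc_sub_of_Ioo {a b : ℝ} {Y : Set ℝ} (hY : IsClosed Y) (hab : a < b) (h : Ioo a b ⊆ Y) :
    Icc a b ⊆ Y := by
  have := closure_minimal h hY
  rwa [closure_Ioo hab.ne] at this

lemma map_closure {β d x y : ℝ} {Z : Set ℝ} (hβ : 0 < β) (hxy : x < y) (h : Icc x y ⊆ closure Z)
    (hZ : ∀ z ∈ Z, x < z → z < y → β * z - d ∈ Z) : Icc (β * x - d) (β * y - d) ⊆ closure Z := by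
  refine Icc_sub_of_Ioo isClosed_closure (by nlinarith) ?_
  rintro w ⟨hw1, hw2⟩
  set z := (w + d) / β with hz
  have hzw : β * z - d = w := by rw [hz]; field_simp; ring
  have hz1 : x < z := by
    rw [hz, lt_div_iff₀ hβ]
    linarith [mul_comm x β]
  have hz2 : z < y := by
    rw [hz, div_lt_iff₀ hβ]
    linarith [mul_comm y β]
  have hzc : z ∈ closure Z := h ⟨hz1.le, hz2.le⟩
  rw [Metric.mem_closure_iff] at hzc ⊢
  intro ε hε
  obtain ⟨u, hu, hd⟩ := hzc (min (ε / β) (min (z - x) (y - z)))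
    (lt_min (by positivity) (lt_min (by linarith) (by linarith)))
  have h1 := hd.trans_le (min_le_left _ _)
  have h2 := hd.trans_le ((min_le_right _ _).trans (min_le_left _ _))
  have h3 := hd.trans_le ((min_le_right _ _).trans (min_le_right _ _))
  rw [Real.dist_eq, abs_lt] at h2 h3
  refine ⟨β * u - d, hZ u hu (by linarith) (by linarith), ?_⟩
  rw [Real.dist_eq, ← hzw, show β * z - d - (β * u - d) = β * (z - u) by ring, abs_mul,
    abs_of_pos hβ]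
  rw [Real.dist_eq, lt_div_iff₀ hβ] at h1
  linarith [mul_comm (|z - u|) β]

theorem dense_of {Z : Set ℝ} (hβ1 : 1 < β) (hβ2 : β ^ 2 ≤ 2) (hq0 : 0 ≤ q) (hq1 : q * β ≤ 1)
    (hZ : Z ⊆ Icc q (1 + q)) (hl : ∀ z ∈ Z, z * β < 1 + q → β * z ∈ Z)
    (hr : ∀ z ∈ Z, 1 + q < z * β → β * z - 1 ∈ Z)
    (hne : ∃ x y, x < y ∧ Icc x y ⊆ closure Z) : Icc q (1 + q) ⊆ closure Z := by
  have hβ0 : 0 < β := by linarith
  refine core hβ1 hβ2 hq0 hq1 ⟨isClosed_closure, closure_minimal hZ isClosed_Icc, ?_, ?_⟩ hne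
  · intro x y hxy h hy
    have := map_closure (d := 0) hβ0 hxy h (fun z hz _ hzy => by
      rw [sub_zero]
      exact hl z hz ((mul_lt_mul_of_pos_right hzy hβ0).trans_le hy))
    simpa using this
  · intro x y hxy h hx
    exact map_closure (d := 1) hβ0 hxy h (fun z hz hxz _ =>
      hr z hz (hx.trans_lt (mul_lt_mul_of_pos_right hxz hβ0)))

/-- The map `x ↦ β x + α mod 1` of `[0, 1)`. -/
noncomputable def T (α β : ℝ) (x : Ico (0 : ℝ) 1) : Ico (0 : ℝ) 1 :=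
  ⟨Int.fract (β * x + α), Int.fract_nonneg _, Int.fract_lt_one _⟩

lemma T_left {α β : ℝ} (hα : 0 ≤ α) (hβ : 0 ≤ β) (x : Ico (0 : ℝ) 1) (h : β * x + α < 1) :
    (T α β x : ℝ) = β * x + α := by
  show Int.fract (β * (x : ℝ) + α) = _
  rw [Int.fract_eq_self]
  exact ⟨add_nonneg (mul_nonneg hβ x.2.1) hα, h⟩

lemma T_right {α β : ℝ} (hαβ : α + β ≤ 2) (hβ : 0 < β) (x : Ico (0 : ℝ) 1)
    (h : 1 ≤ β * x + α) : (T α β x : ℝ) = β * x + α - 1 := by
  show Int.fract (β * (x : ℝ) + α) = _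
  have h1 : β * (x : ℝ) < β * 1 := mul_lt_mul_of_pos_left x.2.2 hβ
  rw [Int.fract_eq_iff]
  exact ⟨by linarith, by linarith, 1, by push_cast; ring⟩

/-- The union of the forward images. -/
def W (α β : ℝ) (U : Set (Ico (0 : ℝ) 1)) : Set ℝ :=
  {x | ∃ n : ℕ, ∃ u ∈ U, ((T α β)^[n] u : ℝ) = x}

lemma W_step {α β : ℝ} {U : Set (Ico (0 : ℝ) 1)} {x : ℝ} (hx : x ∈ W α β U) :
    ∃ y : Ico (0 : ℝ) 1, (y : ℝ) = x ∧ (T α β y : ℝ) ∈ W α β U := by
  obtain ⟨n, u, hu, rfl⟩ := hx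
  refine ⟨_, rfl, n + 1, u, hu, ?_⟩
  rw [Function.iterate_succ_apply']

lemma W_sub {α β : ℝ} {U : Set (Ico (0 : ℝ) 1)} {x : ℝ} (hx : x ∈ W α β U) : 0 ≤ x ∧ x < 1 := by
  obtain ⟨n, u, hu, rfl⟩ := hx
  exact ⟨((T α β)^[n] u).2.1, ((T α β)^[n] u).2.2⟩

lemma exists_interval {U : Set (Ico (0 : ℝ) 1)} (hU : IsOpen U) (hne : U.Nonempty) :
    ∃ x y : ℝ, x < y ∧ ∀ z, x ≤ z → z ≤ y → ∃ u ∈ U, (u : ℝ) = z := by
  obtain ⟨u, hu⟩ := hne
  obtain ⟨ε, hε, hball⟩ := Metric.isOpen_iff.1 hU u hu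
  have hu1 := u.2.2
  have hu0 := u.2.1
  refine ⟨u, u + min ε (1 - u) / 2, ?_, ?_⟩
  · have : 0 < min ε (1 - (u : ℝ)) := lt_min hε (by linarith)
    linarith
  · intro z hz1 hz2
    have h1 : min ε (1 - (u : ℝ)) ≤ ε := min_le_left _ _
    have h2 : min ε (1 - (u : ℝ)) ≤ 1 - u := min_le_right _ _
    have hz : z ∈ Ico (0 : ℝ) 1 := ⟨by linarith, by linarith⟩
    refine ⟨⟨z, hz⟩, hball ?_, rfl⟩
    rw [Metric.mem_ball, Subtype.dist_eq, Real.dist_eq, abs_of_nonneg (by simpa using hz1)]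
    show z - (u : ℝ) < ε
    linarith

lemma W_dense_left {α β : ℝ} (hβ1 : 1 < β) (hβ2 : β ^ 2 ≤ 2) (hα : 0 ≤ α) (hαβ : α + β ≤ 2)
    (h : α * β ≤ β - 1) {U : Set (Ico (0 : ℝ) 1)} (hU : IsOpen U) (hne : U.Nonempty) :
    Icc (0 : ℝ) 1 ⊆ closure (W α β U) := by
  have hβ0 : 0 < β := by linarith
  set q := α / (β - 1) with hq
  have hqα : q * (β - 1) = α := by
    rw [hq]
    exact div_mul_cancel₀ _ (by linarith)
  have hq0 : 0 ≤ q := div_nonneg hα (by linarith)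
  have hq1 : q * β ≤ 1 := by
    rw [hq, div_mul_eq_mul_div, div_le_one (by linarith)]
    exact h
  set Z : Set ℝ := {z | z - q ∈ W α β U} with hZ
  have key : Icc q (1 + q) ⊆ closure Z := by
    apply dense_of hβ1 hβ2 hq0 hq1
    · intro z hz
      have := W_sub hz
      exact ⟨by linarith, by linarith⟩
    · intro z hz hlt
      obtain ⟨y, hy, hT⟩ := W_step hz
      show β * z - q ∈ W α β U
      rw [T_left hα hβ0.le y (by rw [hy]; linarith)] at hT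
      convert hT using 1
      rw [hy]
      linarith
    · intro z hz hlt
      obtain ⟨y, hy, hT⟩ := W_step hz
      show β * z - 1 - q ∈ W α β U
      rw [T_right hαβ hβ0 y (by rw [hy]; linarith)] at hT
      convert hT using 1
      rw [hy]
      linarith
    · obtain ⟨x, y, hxy, hI⟩ := exists_interval hU hne
      refine ⟨x + q, y + q, by linarith, fun z hz => subset_closure ?_⟩
      obtain ⟨u, hu, huz⟩ := hI (z - q) (by linarith [hz.1]) (by linarith [hz.2])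
      exact ⟨0, u, hu, huz⟩
  intro x hx
  have h1 : x + q ∈ closure Z := key ⟨by linarith [hx.1], by linarith [hx.2]⟩
  rw [Metric.mem_closure_iff] at h1 ⊢
  intro ε hε
  obtain ⟨z, hz, hd⟩ := h1 ε hε
  refine ⟨z - q, hz, ?_⟩
  rw [Real.dist_eq] at hd ⊢
  rwa [show x - (z - q) = x + q - z by ring]

lemma W_dense_right {α β : ℝ} (hβ1 : 1 < β) (hβ2 : β ^ 2 ≤ 2) (hα : 0 ≤ α) (hαβ : α + β ≤ 2)
    (h : (2 - β - α) * β ≤ β - 1) {U : Set (Ico (0 : ℝ) 1)} (hU : IsOpen U) (hne : U.Nonempty) :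
    Icc (0 : ℝ) 1 ⊆ closure (W α β U) := by
  have hβ0 : 0 < β := by linarith
  set q := (2 - β - α) / (β - 1) with hq
  have hqα : q * (β - 1) = 2 - β - α := by
    rw [hq]
    exact div_mul_cancel₀ _ (by linarith)
  have hq0 : 0 ≤ q := div_nonneg (by linarith) (by linarith)
  have hq1 : q * β ≤ 1 := by
    rw [hq, div_mul_eq_mul_div, div_le_one (by linarith)]
    exact h
  set Z : Set ℝ := {z | 1 + q - z ∈ W α β U} with hZ
  have key : Icc q (1 + q) ⊆ closure Z := by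
    apply dense_of hβ1 hβ2 hq0 hq1
    · intro z hz
      have := W_sub hz
      exact ⟨by linarith, by linarith⟩
    · intro z hz hlt
      obtain ⟨y, hy, hT⟩ := W_step hz
      show 1 + q - β * z ∈ W α β U
      rw [T_right hαβ hβ0 y (by rw [hy]; linarith)] at hT
      convert hT using 1
      rw [hy]
      linarith
    · intro z hz hlt
      obtain ⟨y, hy, hT⟩ := W_step hz
      show 1 + q - (β * z - 1) ∈ W α β U
      rw [T_left hα hβ0.le y (by rw [hy]; linarith)] at hT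
      convert hT using 1
      rw [hy]
      linarith
    · obtain ⟨x, y, hxy, hI⟩ := exists_interval hU hne
      refine ⟨1 + q - y, 1 + q - x, by linarith, fun z hz => subset_closure ?_⟩
      obtain ⟨u, hu, huz⟩ := hI (1 + q - z) (by linarith [hz.2]) (by linarith [hz.1])
      exact ⟨0, u, hu, huz⟩
  intro x hx
  have h1 : 1 + q - x ∈ closure Z := key ⟨by linarith [hx.2], by linarith [hx.1]⟩
  rw [Metric.mem_closure_iff] at h1 ⊢
  intro ε hε
  obtain ⟨z, hz, hd⟩ := h1 ε hε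
  refine ⟨1 + q - z, hz, ?_⟩
  rw [Real.dist_eq] at hd ⊢
  rwa [show x - (1 + q - z) = -(1 + q - x - z) by ring, abs_neg]

theorem transitive {α β : ℝ} (hβ1 : 1 < β) (hβ2 : β ≤ Real.sqrt 2) (hα : 0 ≤ α)
    (hαβ : α + β ≤ 2) (h : α ≤ 1 - 1 / β ∨ 1 + 1 / β - β ≤ α) (U V : Set (Ico (0 : ℝ) 1))
    (hU : IsOpen U) (hUne : U.Nonempty) (hV : IsOpen V) (hVne : V.Nonempty) :
    ∃ n : ℕ, ((T α β)^[n] '' U ∩ V).Nonempty := by
  have hβ0 : 0 < β := by linarith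
  have hβ2' : β ^ 2 ≤ 2 := by
    calc β ^ 2 ≤ (Real.sqrt 2) ^ 2 := by gcongr
      _ = 2 := Real.sq_sqrt (by norm_num)
  have hβi : 1 / β * β = 1 := by field_simp
  have key : Icc (0 : ℝ) 1 ⊆ closure (W α β U) := by
    rcases h with h | h
    · refine W_dense_left hβ1 hβ2' hα hαβ ?_ hU hUne
      have := mul_le_mul_of_nonneg_right h hβ0.le
      linarith [sub_mul 1 (1 / β) β]
    · refine W_dense_right hβ1 hβ2' hα hαβ ?_ hU hUne
      have h1 : 2 - β - α ≤ 1 - 1 / β := by linarith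
      have := mul_le_mul_of_nonneg_right h1 hβ0.le
      linarith [sub_mul 1 (1 / β) β]
  obtain ⟨v, hv⟩ := hVne
  obtain ⟨ε, hε, hball⟩ := Metric.isOpen_iff.1 hV v hv
  have h1 := key ⟨v.2.1, v.2.2.le⟩
  rw [Metric.mem_closure_iff] at h1
  obtain ⟨w, ⟨n, u, hu, rfl⟩, hd⟩ := h1 ε hε
  refine ⟨n, (T α β)^[n] u, ⟨u, hu, rfl⟩, hball ?_⟩
  rw [Metric.mem_ball, dist_comm, Subtype.dist_eq]
  exact hd

end Pool.Agent.R199.Beta
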