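import Mathlib

/-!
The erasing-substitution interval map: definitions and the functional equation.
-/

set_option autoImplicit false

open Set Filter Topology

namespace Pool.Agent.R199.Erase

/-- The real number in `[0, 1]` with the binary digits `b 0, b 1, b 2, …` (the digit `b k` stands at
position `k + 1` after the binary point). -/
noncomputable def val (b : ℕ → Bool) : ℝ := ∑' k, if b k then (1 / 2 : ℝ) ^ (k + 1) else 0

/-- The erasing substitution: all zeros are deleted, a one at an odd position is replaced by `0`
(`false`), a one at an even position by `1` (`true`). The index `k` stands for the position `k + 1`,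
so the `j`-th surviving symbol is `1` if and only if the index of the `j`-th one is odd. -/
noncomputable def rho (b : ℕ → Bool) : ℕ → Bool :=
  fun j => decide (Odd (Nat.nth (fun k => b k = true) j))

/-- `R : [0,1] → [0,1]` is the map of the problem: `R 0 = 2/3`, and if `x` has the binary expansion
`b` with infinitely many ones, then `R x` is the number with the binary digits `rho b`. -/
structure IsR (R : unitInterval → unitInterval) : Prop where
  zero : (R 0 : ℝ) = 2 / 3
  pos : ∀ (b : ℕ → Bool) (x : unitInterval), {k | b k = true}.Infinite → (x : ℝ) = val b →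
    (R x : ℝ) = val (rho b)

/-! ### binary expansions -/

lemma summable_val (b : ℕ → Bool) : Summable fun k => if b k then (1 / 2 : ℝ) ^ (k + 1) else 0 := by
  have h1 : Summable fun k : ℕ => (1 / 2 : ℝ) ^ (k + 1) := by
    have := (summable_geometric_of_lt_one (r := (1 / 2 : ℝ)) (by norm_num) (by norm_num))
    exact (summable_nat_add_iff 1).2 this
  apply Summable.of_nonneg_of_le _ _ h1
  · intro k
    split_ifs
    · positivity
    · exact le_rfl
  · intro k
    split_ifs
    · exact le_rfl
    · positivity

/-- prepend a digit -/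
def cons (a : Bool) (b : ℕ → Bool) : ℕ → Bool
  | 0 => a
  | k + 1 => b k

/-- the value of a digit -/
def dig (a : Bool) : ℝ := if a then 1 else 0

lemma val_cons (a : Bool) (b : ℕ → Bool) : val (cons a b) = (dig a + val b) / 2 := by
  unfold val
  rw [(summable_val (cons a b)).tsum_eq_zero_add]
  have h1 : ∀ k, (if cons a b (k + 1) then (1 / 2 : ℝ) ^ (k + 1 + 1) else 0) =
      (if b k then (1 / 2 : ℝ) ^ (k + 1) else 0) * (1 / 2) := by
    intro k
    show (if b k then (1 / 2 : ℝ) ^ (k + 1 + 1) else 0) = _
    split_ifs
    · rw [pow_succ]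
    · simp
  simp only [h1]
  rw [tsum_mul_right]
  have h2 : (if cons a b 0 then (1 / 2 : ℝ) ^ (0 + 1) else 0) = dig a / 2 := by
    show (if a then (1 / 2 : ℝ) ^ (0 + 1) else 0) = _
    unfold dig
    split_ifs <;> norm_num
  rw [h2]
  ring

lemma val_nonneg (b : ℕ → Bool) : 0 ≤ val b := by
  apply tsum_nonneg
  intro k
  split_ifs
  · positivity
  · exact le_rfl

lemma tsum_half : ∑' k : ℕ, (1 / 2 : ℝ) ^ (k + 1) = 1 := by
  have : ∀ k : ℕ, (1 / 2 : ℝ) ^ (k + 1) = (1 / 2) ^ k * (1 / 2) := fun k => pow_succ _ _
  simp only [this]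
  rw [tsum_mul_right, tsum_geometric_of_lt_one (by norm_num) (by norm_num)]
  norm_num

lemma val_not (b : ℕ → Bool) : val (fun k => !(b k)) = 1 - val b := by
  have h := (summable_val (fun k => !(b k))).tsum_add (summable_val b)
  have h2 : (fun k => (if (!(b k)) = true then (1 / 2 : ℝ) ^ (k + 1) else 0) +
      (if b k then (1 / 2 : ℝ) ^ (k + 1) else 0)) = fun k => (1 / 2 : ℝ) ^ (k + 1) := by
    funext k
    cases b k <;> simp
  rw [h2, tsum_half] at h
  unfold val
  linarith

lemma val_le_one (b : ℕ → Bool) : val b ≤ 1 := by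
  have := val_nonneg (fun k => !(b k))
  rw [val_not] at this
  linarith

lemma val_pos {b : ℕ → Bool} {k : ℕ} (h : b k = true) : 0 < val b := by
  unfold val
  apply (summable_val b).tsum_pos _ k
  · rw [if_pos h]
    positivity
  · intro k
    split_ifs
    · positivity
    · exact le_rfl

/-! ### the doubling map -/

/-- the doubling map of `(0, 1]` -/
noncomputable def D (y : ℝ) : ℝ := if y ≤ 1 / 2 then 2 * y else 2 * y - 1

lemma D_mem {y : ℝ} (hy : y ∈ Ioc (0 : ℝ) 1) : D y ∈ Ioc (0 : ℝ) 1 := by
  unfold D
  obtain ⟨h1, h2⟩ := hy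
  split_ifs with h
  · exact ⟨by linarith, by linarith⟩
  · push Not at h
    exact ⟨by linarith, by linarith⟩

lemma D_iter_mem {y : ℝ} (hy : y ∈ Ioc (0 : ℝ) 1) (n : ℕ) : D^[n] y ∈ Ioc (0 : ℝ) 1 := by
  induction n with
  | zero => exact hy
  | succ n ih => rw [Function.iterate_succ_apply']; exact D_mem ih

/-- the binary expansion with infinitely many ones -/
noncomputable def beta (y : ℝ) : ℕ → Bool := fun k => decide (1 / 2 < D^[k] y)

lemma eq_beta_D (y : ℝ) : y = (dig (beta y 0) + D y) / 2 := by
  have h0 : beta y 0 = decide (1 / 2 < y) := rfl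
  rcases le_or_gt y (1 / 2) with h | h
  · rw [h0, decide_eq_false (not_lt.2 h), D, if_pos h, dig]
    simp
  · rw [h0, decide_eq_true h, D, if_neg (not_le.2 h), dig]
    simp

lemma beta_succ (y : ℝ) (k : ℕ) : beta y (k + 1) = beta (D y) k := by
  unfold beta
  rw [Function.iterate_succ_apply]

lemma beta_eq_cons (y : ℝ) : beta y = cons (beta y 0) (beta (D y)) := by
  funext k
  cases k with
  | zero => rfl
  | succ k => exact beta_succ y k

lemma val_beta {y : ℝ} (hy : y ∈ Ioc (0 : ℝ) 1) : val (beta y) = y := by
  have key : ∀ n : ℕ, ∀ y ∈ Ioc (0 : ℝ) 1, |val (beta y) - y| ≤ (1 / 2) ^ n := by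
    intro n
    induction n with
    | zero =>
      intro y hy
      have h1 := val_nonneg (beta y)
      have h2 := val_le_one (beta y)
      rw [pow_zero, abs_le]
      exact ⟨by linarith [hy.1, hy.2], by linarith [hy.1, hy.2]⟩
    | succ n ih =>
      intro y hy
      have h1 := ih (D y) (D_mem hy)
      have h2 : val (beta y) - y = (val (beta (D y)) - D y) / 2 := by
        conv_lhs => rw [beta_eq_cons y, val_cons, eq_beta_D y]
        have : dig (beta ((dig (beta y 0) + D y) / 2) 0) = dig (beta y 0) := by
          rw [← eq_beta_D y]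
        have h3 : D ((dig (beta y 0) + D y) / 2) = D y := by rw [← eq_beta_D y]
        rw [this, h3]
        ring
      rw [h2, abs_div, abs_two, pow_succ]
      linarith
  have h : Tendsto (fun n : ℕ => (1 / 2 : ℝ) ^ n) atTop (𝓝 0) :=
    tendsto_pow_atTop_nhds_zero_of_lt_one (by norm_num) (by norm_num)
  have h2 : |val (beta y) - y| ≤ 0 := ge_of_tendsto' h fun n => key n y hy
  exact sub_eq_zero.1 (abs_nonpos_iff.1 h2)

lemma exists_large {y : ℝ} (hy : y ∈ Ioc (0 : ℝ) 1) : ∃ k, 1 / 2 < D^[k] y := by
  by_contra h
  push Not at h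
  have h1 : ∀ k, D^[k] y = 2 ^ k * y := by
    intro k
    induction k with
    | zero => simp
    | succ k ih =>
      rw [Function.iterate_succ_apply', D, if_pos (h k), ih, pow_succ]
      ring
  obtain ⟨k, hk⟩ := pow_unbounded_of_one_lt (1 / y) (show (1 : ℝ) < 2 by norm_num)
  have h2 := h k
  rw [h1, ] at h2
  have hy0 := hy.1
  rw [div_lt_iff₀ hy0] at hk
  linarith

lemma beta_infinite {y : ℝ} (hy : y ∈ Ioc (0 : ℝ) 1) : {k | beta y k = true}.Infinite := by
  rw [Set.infinite_iff_exists_gt]
  intro n
  obtain ⟨k, hk⟩ := exists_large (D_iter_mem hy (n + 1))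
  rw [← Function.iterate_add_apply] at hk
  refine ⟨k + (n + 1), ?_, by omega⟩
  show decide _ = true
  simpa using hk

/-! ### uniqueness of the expansion -/

lemma tail_infinite {b : ℕ → Bool} (hb : {k | b k = true}.Infinite) :
    {k | b (k + 1) = true}.Infinite := by
  rw [Set.infinite_iff_exists_gt] at hb ⊢
  intro n
  obtain ⟨k, hk, hlt⟩ := hb (n + 1)
  obtain ⟨m, rfl⟩ : ∃ m, k = m + 1 := ⟨k - 1, by omega⟩
  exact ⟨m, hk, by omega⟩

lemma cons_tail (b : ℕ → Bool) : cons (b 0) (fun k => b (k + 1)) = b := by
  funext k
  cases k <;> rfl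

lemma val_mem {b : ℕ → Bool} (hb : {k | b k = true}.Infinite) : val b ∈ Ioc (0 : ℝ) 1 := by
  obtain ⟨k, hk⟩ := hb.nonempty
  exact ⟨val_pos hk, val_le_one b⟩

lemma beta_val {b : ℕ → Bool} (hb : {k | b k = true}.Infinite) : beta (val b) = b := by
  have key : ∀ (b : ℕ → Bool), {k | b k = true}.Infinite →
      beta (val b) 0 = b 0 ∧ D (val b) = val (fun k => b (k + 1)) := by
    intro b hb
    have h1 := val_mem (tail_infinite hb)
    have h2 : val b = (dig (b 0) + val (fun k => b (k + 1))) / 2 := by
      rw [← val_cons, cons_tail]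
    unfold beta D
    simp only [Function.iterate_zero, id_eq]
    rw [h2]
    obtain ⟨h3, h4⟩ := h1
    cases b 0 with
    | false =>
      have hle : (dig false + val (fun k => b (k + 1))) / 2 ≤ 1 / 2 := by
        simp only [dig, Bool.false_eq_true, if_false]
        linarith
      rw [if_pos hle]
      refine ⟨by simpa using hle, ?_⟩
      simp only [dig, Bool.false_eq_true, if_false]
      ring
    | true =>
      have hlt : 1 / 2 < (dig true + val (fun k => b (k + 1))) / 2 := by
        simp only [dig, if_true]
        linarith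
      rw [if_neg (not_le.2 hlt)]
      refine ⟨by simpa using hlt, ?_⟩
      simp only [dig, if_true]
      ring
  funext k
  induction k generalizing b with
  | zero => exact (key b hb).1
  | succ k ih =>
    rw [beta_succ, (key b hb).2]
    exact ih (tail_infinite hb)

/-! ### the substitution -/

lemma rho_eq_of {b c : ℕ → Bool} (hb : {k | b k = true}.Infinite)
    (h : ∀ k, b k = true → c (Nat.count (fun i => b i = true) k) = decide (Odd k)) :
    rho b = c := by
  funext j
  have hb' : (Set.ofPred fun i => b i = true).Infinite := hb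
  have h1 := Nat.nth_mem_of_infinite hb' j
  have h2 := Nat.count_nth_of_infinite hb' j
  have h3 := h _ h1
  rw [h2] at h3
  rw [h3]
  rfl

lemma rho_count {b : ℕ → Bool} {k : ℕ} (hk : b k = true) :
    rho b (Nat.count (fun i => b i = true) k) = decide (Odd k) := by
  unfold rho
  rw [Nat.nth_count hk]

lemma cons_infinite {a : Bool} {b : ℕ → Bool} (hb : {k | b k = true}.Infinite) :
    {k | cons a b k = true}.Infinite := by
  rw [Set.infinite_iff_exists_gt] at hb ⊢
  intro n
  obtain ⟨k, hk, hlt⟩ := hb n
  exact ⟨k + 1, hk, by omega⟩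

lemma decide_odd_succ (k : ℕ) : decide (Odd (k + 1)) = !decide (Odd k) := by
  rw [← decide_not]
  congr 1
  rw [Nat.odd_add_one]

lemma rho_cons_false {b : ℕ → Bool} (hb : {k | b k = true}.Infinite) :
    rho (cons false b) = fun k => !(rho b k) := by
  apply rho_eq_of (cons_infinite hb)
  intro k hk
  cases k with
  | zero => exact absurd hk (by simp [cons])
  | succ k =>
    have hk' : b k = true := hk
    have hc : Nat.count (fun i => cons false b i = true) (k + 1) =
        Nat.count (fun i => b i = true) k := by
      rw [Nat.count_succ', if_neg (by simp [cons])]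
      rfl
    rw [hc, decide_odd_succ, ← rho_count hk']

lemma rho_cons_true {b : ℕ → Bool} (hb : {k | b k = true}.Infinite) :
    rho (cons true b) = cons false (fun k => !(rho b k)) := by
  apply rho_eq_of (cons_infinite hb)
  intro k hk
  cases k with
  | zero =>
    rw [Nat.count_zero]
    simp [cons]
  | succ k =>
    have hk' : b k = true := hk
    have hc : Nat.count (fun i => cons true b i = true) (k + 1) =
        Nat.count (fun i => b i = true) k + 1 := by
      rw [Nat.count_succ', if_pos (by simp [cons])]
      rfl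
    rw [hc, decide_odd_succ, ← rho_count hk']
    rfl

/-! ### existence of `R` -/

lemma exists_isR : ∃ R : unitInterval → unitInterval, IsR R := by
  classical
  refine ⟨fun x => if (x : ℝ) = 0 then ⟨2 / 3, by norm_num, by norm_num⟩ else
    ⟨val (rho (beta x)), val_nonneg _, val_le_one _⟩, ?_, ?_⟩
  · simp
  · intro b x hb hx
    have h1 := val_mem hb
    have h2 : (x : ℝ) ≠ 0 := by rw [hx]; exact h1.1.ne'
    rw [if_neg h2]
    show val (rho (beta x)) = _
    rw [hx, beta_val hb]

/-! ### the functional equation -/

/-- the functional equation on the real line -/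
structure FE (r : ℝ → ℝ) : Prop where
  mem : ∀ y, r y ∈ Icc (0 : ℝ) 1
  half : ∀ y ∈ Ioc (0 : ℝ) 1, r (y / 2) = 1 - r y
  half' : ∀ y ∈ Ioc (0 : ℝ) 1, r ((1 + y) / 2) = (1 - r y) / 2

/-- the extension of `R` to the real line -/
noncomputable def ext (R : unitInterval → unitInterval) (y : ℝ) : ℝ :=
  R (projIcc 0 1 zero_le_one y)

lemma ext_coe (R : unitInterval → unitInterval) (x : unitInterval) : ext R x = R x := by
  unfold ext
  rw [projIcc_val]

lemma ext_iterate (R : unitInterval → unitInterval) (n : ℕ) (x : unitInterval) :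
    (ext R)^[n] x = (R^[n] x : unitInterval) := by
  induction n with
  | zero => rfl
  | succ n ih => rw [Function.iterate_succ_apply', Function.iterate_succ_apply', ih, ext_coe]

lemma fe_of_isR {R : unitInterval → unitInterval} (hR : IsR R) : FE (ext R) := by
  have key : ∀ b : ℕ → Bool, {k | b k = true}.Infinite → ext R (val b) = val (rho b) := by
    intro b hb
    have h := hR.pos b ⟨val b, val_nonneg b, val_le_one b⟩ hb rfl
    rw [← h]
    exact ext_coe R ⟨val b, val_nonneg b, val_le_one b⟩
  refine ⟨fun y => (R _).2, fun y hy => ?_, fun y hy => ?_⟩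
  · have h1 : y / 2 = val (cons false (beta y)) := by
      rw [val_cons, val_beta hy]
      simp [dig]
    rw [h1, key _ (cons_infinite (beta_infinite hy)), rho_cons_false (beta_infinite hy), val_not,
      ← key _ (beta_infinite hy), val_beta hy]
  · have h1 : (1 + y) / 2 = val (cons true (beta y)) := by
      rw [val_cons, val_beta hy]
      simp [dig]
    rw [h1, key _ (cons_infinite (beta_infinite hy)), rho_cons_true (beta_infinite hy), val_cons,
      val_not, ← key _ (beta_infinite hy), val_beta hy]
    simp [dig]

end Pool.Agent.R199.Erase
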