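import Pool.Agent.R199.Erase1

/-!
The erasing-substitution interval map: words, and genericity of dense orbits.
-/

set_option autoImplicit false

open Set Filter Topology

namespace Pool.Agent.R199.Erase

/-- the affine map of a word -/
noncomputable def S : List Bool → ℝ → ℝ
  | [], y => y
  | a :: w, y => (dig a + S w y) / 2

/-- the substitution on words -/
def rhoW : List Bool → List Bool
  | [] => []
  | false :: w => (rhoW w).map not
  | true :: w => false :: (rhoW w).map not

/-- the reflection of the unit interval -/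
def F (z : ℝ) : ℝ := 1 - z

lemma S_append (w u : List Bool) (y : ℝ) : S (w ++ u) y = S w (S u y) := by
  induction w with
  | nil => rfl
  | cons a w ih =>
    show (dig a + S (w ++ u) y) / 2 = (dig a + S w (S u y)) / 2
    rw [ih]

lemma dig_mem (a : Bool) : 0 ≤ dig a ∧ dig a ≤ 1 := by
  unfold dig
  split_ifs <;> norm_num

lemma S_affine (w : List Bool) (y : ℝ) : S w y = S w 0 + y / 2 ^ w.length := by
  induction w with
  | nil => simp [S]
  | cons a w ih =>
    simp only [S, List.length_cons, pow_succ]
    rw [ih]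
    field_simp
    ring

lemma S_nonneg (w : List Bool) : 0 ≤ S w 0 := by
  induction w with
  | nil => exact le_rfl
  | cons a w ih =>
    simp only [S]
    have := (dig_mem a).1
    linarith

lemma S_one_le (w : List Bool) : S w 1 ≤ 1 := by
  induction w with
  | nil => exact le_rfl
  | cons a w ih =>
    simp only [S]
    have := (dig_mem a).2
    linarith

lemma S_mono (w : List Bool) {y z : ℝ} (h : y ≤ z) : S w y ≤ S w z := by
  rw [S_affine w y, S_affine w z]
  gcongr

lemma S_strictMono (w : List Bool) {y z : ℝ} (h : y < z) : S w y < S w z := by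
  rw [S_affine w y, S_affine w z]
  gcongr

lemma S_Icc (w : List Bool) {y : ℝ} (hy : y ∈ Icc (0 : ℝ) 1) : S w y ∈ Icc (0 : ℝ) 1 :=
  ⟨(S_nonneg w).trans (S_mono w hy.1), (S_mono w hy.2).trans (S_one_le w)⟩

lemma S_Ioc (w : List Bool) {y : ℝ} (hy : y ∈ Ioc (0 : ℝ) 1) : S w y ∈ Ioc (0 : ℝ) 1 :=
  ⟨(S_nonneg w).trans_lt (S_strictMono w hy.1), (S_mono w hy.2).trans (S_one_le w)⟩

lemma S_Ioo (w : List Bool) {y : ℝ} (hy : y ∈ Ioo (0 : ℝ) 1) : S w y ∈ Ioo (0 : ℝ) 1 :=
  ⟨(S_nonneg w).trans_lt (S_strictMono w hy.1), (S_strictMono w hy.2).trans_le (S_one_le w)⟩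

lemma S_not (w : List Bool) (y : ℝ) : 1 - S w y = S (w.map not) (1 - y) := by
  induction w with
  | nil => rfl
  | cons a w ih =>
    simp only [S, List.map_cons, ← ih]
    have : dig (!a) = 1 - dig a := by
      unfold dig
      cases a <;> simp
    rw [this]
    ring

lemma r_S {r : ℝ → ℝ} (h : FE r) (w : List Bool) {y : ℝ} (hy : y ∈ Ioc (0 : ℝ) 1) :
    r (S w y) = S (rhoW w) (F^[w.length] (r y)) := by
  induction w with
  | nil => rfl
  | cons a w ih =>
    have hS := S_Ioc w hy
    cases a with
    | false =>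
      have h1 : S (false :: w) y = S w y / 2 := by simp [S, dig]
      rw [h1, h.half _ hS, ih, S_not, List.length_cons, Function.iterate_succ_apply']
      rfl
    | true =>
      have h1 : S (true :: w) y = (1 + S w y) / 2 := by simp [S, dig]
      rw [h1, h.half' _ hS, ih, S_not, List.length_cons, Function.iterate_succ_apply']
      simp [S, dig, rhoW, F]

/-! ### combinatorics of the substitution on words -/

lemma rhoW_length_le (w : List Bool) : (rhoW w).length ≤ w.length := by
  induction w with
  | nil => exact le_rfl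
  | cons a w ih =>
    cases a with
    | false =>
      simp only [rhoW, List.length_map, List.length_cons]
      omega
    | true =>
      simp only [rhoW, List.length_map, List.length_cons]
      omega

lemma rhoW_rhoW_length_lt {w : List Bool} (hw : w ≠ []) : (rhoW (rhoW w)).length < w.length := by
  cases w with
  | nil => exact absurd rfl hw
  | cons a w =>
    cases a with
    | false =>
      have h1 := rhoW_length_le (rhoW (false :: w))
      have h2 := rhoW_length_le w
      simp only [rhoW, List.length_map, List.length_cons] at h1 ⊢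
      omega
    | true =>
      have h1 := rhoW_length_le ((rhoW w).map not)
      have h2 := rhoW_length_le w
      simp only [rhoW, List.length_map, List.length_cons] at h1 ⊢
      omega

lemma rhoW_append (w u : List Bool) :
    rhoW (w ++ u) = rhoW w ++ (List.map not)^[w.length] (rhoW u) := by
  induction w with
  | nil => rfl
  | cons a w ih =>
    cases a with
    | false =>
      simp only [List.cons_append, rhoW, ih, List.map_append, List.length_cons,
        Function.iterate_succ_apply']
    | true =>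
      simp only [List.cons_append, rhoW, ih, List.map_append, List.length_cons,
        Function.iterate_succ_apply']

lemma map_not_involutive : Function.Involutive (List.map not) := by
  intro l
  rw [List.map_map]
  have : not ∘ not = id := by
    funext b
    simp
  rw [this, List.map_id]

lemma exists_rhoW (s : List Bool) : ∃ u, rhoW u = s := by
  induction s with
  | nil => exact ⟨[], rfl⟩
  | cons c s ih =>
    obtain ⟨u, hu⟩ := ih
    have h1 := map_not_involutive s
    cases c with
    | false =>
      refine ⟨true :: false :: u, ?_⟩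
      simp only [rhoW, hu, h1]
    | true =>
      refine ⟨false :: true :: u, ?_⟩
      simp only [rhoW, hu, List.map_cons, h1, Bool.not_false]

lemma exists_lift (w s : List Bool) : ∃ u, rhoW (w ++ u) = rhoW w ++ s := by
  obtain ⟨s', hs'⟩ := (map_not_involutive.surjective.iterate w.length) s
  obtain ⟨u, hu⟩ := exists_rhoW s'
  exact ⟨u, by rw [rhoW_append, hu, hs']⟩

/-! ### reaching a given cylinder -/

lemma F_iter_mem (n : ℕ) {z : ℝ} (hz : z ∈ Icc (0 : ℝ) 1) : F^[n] z ∈ Icc (0 : ℝ) 1 := by
  induction n with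
  | zero => exact hz
  | succ n ih =>
    rw [Function.iterate_succ_apply']
    have h1 : F (F^[n] z) = 1 - F^[n] z := rfl
    rw [h1]
    exact ⟨by linarith [ih.2], by linarith [ih.1]⟩

/-- from the word `w` one can reach every cylinder -/
def Reach (r : ℝ → ℝ) (w : List Bool) : Prop :=
  ∀ v : List Bool, ∃ (n : ℕ) (u : List Bool), ∀ y ∈ Ioo (0 : ℝ) 1,
    ∃ z ∈ Ioo (0 : ℝ) 1, r^[n] (S (w ++ u) y) = S v z

lemma reach_step {r : ℝ → ℝ} (h : FE r) (w : List Bool) (hw : Reach r (rhoW w)) : Reach r w := by
  intro v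
  obtain ⟨n, s, hs⟩ := hw v
  obtain ⟨u, hu⟩ := exists_lift w (s ++ [false, true])
  refine ⟨n + 1, u, fun y hy => ?_⟩
  rw [Function.iterate_succ_apply, r_S h _ (Ioo_subset_Ioc_self hy), hu, ← List.append_assoc,
    S_append]
  apply hs
  have h1 := F_iter_mem (w ++ u).length (h.mem y)
  simp only [S, dig]
  constructor
  · simp only [Bool.false_eq_true, if_false, if_true]
    linarith [h1.1]
  · simp only [Bool.false_eq_true, if_false, if_true]
    linarith [h1.2]

lemma reach {r : ℝ → ℝ} (h : FE r) (w : List Bool) : Reach r w := by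
  induction hn : w.length using Nat.strong_induction_on generalizing w with
  | _ n ih =>
    rcases eq_or_ne w [] with rfl | hw
    · intro v
      exact ⟨0, v, fun y hy => ⟨y, hy, rfl⟩⟩
    · apply reach_step h
      apply reach_step h
      exact ih _ (by rw [← hn]; exact rhoW_rhoW_length_lt hw) _ rfl

/-! ### dyadic intervals -/

lemma exists_word {y : ℝ} (n : ℕ) : ∃ w : List Bool, w.length = n ∧ y = S w (D^[n] y) := by
  induction n generalizing y with
  | zero => exact ⟨[], rfl, rfl⟩
  | succ n ih =>
    obtain ⟨w, hw, hy⟩ := ih (y := D y)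
    refine ⟨beta y 0 :: w, by simp [hw], ?_⟩
    rw [Function.iterate_succ_apply]
    show y = (dig (beta y 0) + S w (D^[n] (D y))) / 2
    rw [← hy]
    exact eq_beta_D y

lemma exists_cylinder {V : Set unitInterval} (hV : IsOpen V) (hne : V.Nonempty) :
    ∃ v : List Bool, ∀ x : unitInterval, ∀ z ∈ Icc (0 : ℝ) 1, (x : ℝ) = S v z → x ∈ V := by
  obtain ⟨x, hx⟩ := hne
  obtain ⟨ε, hε, hball⟩ := Metric.isOpen_iff.1 hV x hx
  set y : ℝ := max x (min (ε / 4) 1) with hy
  have hy0 : y ∈ Ioc (0 : ℝ) 1 :=
    ⟨lt_max_of_lt_right (lt_min (by positivity) one_pos), max_le x.2.2 (min_le_right _ _)⟩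
  have hyx : |y - x| ≤ ε / 4 := by
    rw [abs_of_nonneg (by linarith [le_max_left (x : ℝ) (min (ε / 4) 1)])]
    rcases le_total (x : ℝ) (min (ε / 4) 1) with h | h
    · rw [hy, max_eq_right h]
      linarith [min_le_left (ε / 4) 1, x.2.1]
    · rw [hy, max_eq_left h]
      linarith
  obtain ⟨n, hn⟩ := exists_pow_lt_of_lt_one (show 0 < ε / 2 by positivity)
    (show (1 / 2 : ℝ) < 1 by norm_num)
  obtain ⟨w, hw, hyw⟩ := exists_word (y := y) n
  refine ⟨w, fun x' z hz hx' => hball ?_⟩
  rw [Metric.mem_ball, Subtype.dist_eq, Real.dist_eq]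
  have h1 := D_iter_mem hy0 n
  have h2 : |(x' : ℝ) - y| ≤ (1 / 2) ^ n := by
    rw [hx', hyw, S_affine w z, S_affine w (D^[n] y), hw]
    have h3 : S w 0 + z / 2 ^ n - (S w 0 + D^[n] y / 2 ^ n) = (z - D^[n] y) * (1 / 2) ^ n := by
      rw [one_div, inv_pow]
      field_simp
      ring
    rw [h3, abs_mul, abs_of_pos (show (0 : ℝ) < (1 / 2) ^ n by positivity)]
    have h4 : |z - D^[n] y| ≤ 1 := by
      rw [abs_le]
      exact ⟨by linarith [hz.1, h1.2], by linarith [hz.2, h1.1]⟩
    nlinarith [show (0 : ℝ) < (1 / 2) ^ n by positivity]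
  calc |(x' : ℝ) - x| = |((x' : ℝ) - y) + (y - x)| := by ring_nf
    _ ≤ |(x' : ℝ) - y| + |y - x| := abs_add_le _ _
    _ < ε := by linarith

/-! ### genericity -/

theorem residual_dense {R : unitInterval → unitInterval} (hR : IsR R) :
    {x : unitInterval | Dense (range fun n : ℕ => R^[n] x)} ∈ residual unitInterval := by
  have hr := fe_of_isR hR
  set 𝓑 := TopologicalSpace.countableBasis unitInterval with h𝓑
  have hB := TopologicalSpace.isBasis_countableBasis unitInterval
  have hc := TopologicalSpace.countable_countableBasis unitInterval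
  have key : ∀ V : Set unitInterval, IsOpen V → V.Nonempty →
      (⋃ n : ℕ, interior (R^[n] ⁻¹' V)) ∈ residual unitInterval := by
    intro V hV hne
    apply residual_of_dense_open (isOpen_iUnion fun n => isOpen_interior)
    rw [dense_iff_inter_open]
    intro W hW hWne
    obtain ⟨v, hv⟩ := exists_cylinder hV hne
    obtain ⟨w, hw⟩ := exists_cylinder hW hWne
    obtain ⟨n, u, hu⟩ := reach hr w v
    -- the open dyadic interval of `w ++ u`
    have hopen : IsOpen {x : unitInterval | (x : ℝ) ∈ S (w ++ u) '' Ioo 0 1} := by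
      have h1 : S (w ++ u) '' Ioo 0 1 = Ioo (S (w ++ u) 0) (S (w ++ u) 1) := by
        ext t
        constructor
        · rintro ⟨y, hy, rfl⟩
          exact ⟨S_strictMono _ hy.1, S_strictMono _ hy.2⟩
        · rintro ⟨h1, h2⟩
          have h3 := S_affine (w ++ u) 1
          have hpos : (0 : ℝ) < 2 ^ (w ++ u).length := by positivity
          refine ⟨(t - S (w ++ u) 0) * 2 ^ (w ++ u).length, ⟨by nlinarith, ?_⟩, ?_⟩
          · rw [h3] at h2
            have h4 : t - S (w ++ u) 0 < 1 / 2 ^ (w ++ u).length := by linarith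
            rwa [lt_div_iff₀ hpos] at h4
          · rw [S_affine]
            field_simp
            ring
      rw [h1]
      exact isOpen_Ioo.preimage continuous_subtype_val
    have hmem : S (w ++ u) (1 / 2) ∈ Ioo (0 : ℝ) 1 := S_Ioo _ ⟨by norm_num, by norm_num⟩
    refine ⟨⟨S (w ++ u) (1 / 2), hmem.1.le, hmem.2.le⟩, ?_, ?_⟩
    · apply hw _ (S u (1 / 2)) (S_Icc u ⟨by norm_num, by norm_num⟩)
      rw [← S_append]
    · rw [mem_iUnion]
      refine ⟨n, mem_interior.2 ⟨_, ?_, hopen, ⟨1 / 2, ⟨by norm_num, by norm_num⟩, rfl⟩⟩⟩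
      rintro x ⟨y, hy, hyx⟩
      obtain ⟨z, hz, hz'⟩ := hu y hy
      apply hv _ z (Ioo_subset_Icc_self hz)
      rw [← hz', hyx, ext_iterate]
  have h1 : (⋂ V ∈ {V | V ∈ 𝓑 ∧ V.Nonempty}, ⋃ n : ℕ, interior (R^[n] ⁻¹' V)) ∈
      residual unitInterval := by
    rw [countable_bInter_mem (hc.mono fun V hV => hV.1)]
    intro V hV
    exact key V (hB.isOpen hV.1) hV.2
  filter_upwards [h1] with x hx
  show Dense _
  rw [hB.dense_iff]
  intro V hV hne
  simp only [mem_iInter] at hx
  obtain ⟨n, hn⟩ := mem_iUnion.1 (hx V ⟨hV, hne⟩)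
  have hn' : x ∈ R^[n] ⁻¹' V := interior_subset hn
  exact ⟨R^[n] x, hn', ⟨n, rfl⟩⟩

end Pool.Agent.R199.Erase
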