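import Pool.Agent.R199.Erase2

/-!
The erasing-substitution interval map: invariance of Lebesgue measure under the second iterate.
-/

set_option autoImplicit false

open Set Filter Topology MeasureTheory

namespace Pool.Agent.R199.Erase

/-! ### measurability -/

/-- approximations of `r` -/
noncomputable def g : ℕ → ℝ → ℝ
  | 0, _ => 0
  | n + 1, y => if y ≤ 1 / 2 then 1 - g n (2 * y) else (1 - g n (2 * y - 1)) / 2

lemma g_mem (n : ℕ) (y : ℝ) : g n y ∈ Icc (0 : ℝ) 1 := by
  induction n generalizing y with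
  | zero => exact ⟨le_rfl, zero_le_one⟩
  | succ n ih =>
    unfold g
    split_ifs
    · have := ih (2 * y)
      exact ⟨by linarith [this.2], by linarith [this.1]⟩
    · have := ih (2 * y - 1)
      exact ⟨by linarith [this.2], by linarith [this.1]⟩

lemma g_measurable (n : ℕ) : Measurable (g n) := by
  induction n with
  | zero => exact measurable_const
  | succ n ih =>
    show Measurable fun y => if y ≤ 1 / 2 then 1 - g n (2 * y) else (1 - g n (2 * y - 1)) / 2
    apply Measurable.ite measurableSet_Iic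
    · exact measurable_const.sub (ih.comp (measurable_const.mul measurable_id))
    · exact (measurable_const.sub
        (ih.comp ((measurable_const.mul measurable_id).sub measurable_const))).div_const 2

lemma g_error {r : ℝ → ℝ} (h : FE r) {y : ℝ} (hy : y ∈ Ioc (0 : ℝ) 1) (n : ℕ) :
    |r y - g (n + 1) y| ≤ |r (D y) - g n (D y)| ∧
    (1 / 2 < y → |r y - g (n + 1) y| ≤ |r (D y) - g n (D y)| / 2) := by
  have hD := D_mem hy
  rcases le_or_gt y (1 / 2) with h1 | h1
  · have h2 : D y = 2 * y := if_pos h1
    have h3 : r y = 1 - r (D y) := by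
      rw [← h.half _ hD, h2]
      congr 1
      ring
    have h4 : g (n + 1) y = 1 - g n (D y) := by
      rw [h2]
      exact if_pos h1
    rw [h3, h4]
    refine ⟨?_, fun h5 => absurd h1 (not_le.2 h5)⟩
    rw [show 1 - r (D y) - (1 - g n (D y)) = -(r (D y) - g n (D y)) by ring, abs_neg]
  · have h2 : D y = 2 * y - 1 := if_neg (not_le.2 h1)
    have h3 : r y = (1 - r (D y)) / 2 := by
      rw [← h.half' _ hD, h2]
      congr 1
      ring
    have h4 : g (n + 1) y = (1 - g n (D y)) / 2 := by
      rw [h2]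
      exact if_neg (not_le.2 h1)
    have h5 : |r y - g (n + 1) y| = |r (D y) - g n (D y)| / 2 := by
      rw [h3, h4, show (1 - r (D y)) / 2 - (1 - g n (D y)) / 2 = -((r (D y) - g n (D y)) / 2) by ring,
        abs_neg, abs_div, abs_two]
    rw [h5]
    exact ⟨by linarith [abs_nonneg (r (D y) - g n (D y))], fun _ => le_rfl⟩

lemma g_tendsto {r : ℝ → ℝ} (h : FE r) {y : ℝ} (hy : y ∈ Ioc (0 : ℝ) 1) :
    Tendsto (fun n => g n y) atTop (𝓝 (r y)) := by
  have key : ∀ m : ℕ, ∀ y ∈ Ioc (0 : ℝ) 1, ∃ N, ∀ n ≥ N, |r y - g n y| ≤ (1 / 2) ^ m := by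
    intro m
    induction m with
    | zero =>
      intro y _
      refine ⟨0, fun n _ => ?_⟩
      have h1 := h.mem y
      have h2 := g_mem n y
      rw [pow_zero, abs_le]
      exact ⟨by linarith [h1.1, h2.2], by linarith [h1.2, h2.1]⟩
    | succ m ihm =>
      intro y hy
      obtain ⟨k, hk⟩ := exists_large hy
      induction k generalizing y with
      | zero =>
        obtain ⟨N, hN⟩ := ihm (D y) (D_mem hy)
        refine ⟨N + 1, fun n hn => ?_⟩
        obtain ⟨n, rfl⟩ : ∃ n', n = n' + 1 := ⟨n - 1, by omega⟩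
        have h1 := (g_error h hy n).2 hk
        have h2 := hN n (by omega)
        rw [pow_succ]
        linarith
      | succ k ihk =>
        rw [Function.iterate_succ_apply] at hk
        obtain ⟨N, hN⟩ := ihk (D y) (D_mem hy) hk
        refine ⟨N + 1, fun n hn => ?_⟩
        obtain ⟨n, rfl⟩ : ∃ n', n = n' + 1 := ⟨n - 1, by omega⟩
        exact (g_error h hy n).1.trans (hN n (by omega))
  rw [Metric.tendsto_atTop]
  intro ε hε
  obtain ⟨m, hm⟩ := exists_pow_lt_of_lt_one hε (show (1 / 2 : ℝ) < 1 by norm_num)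
  obtain ⟨N, hN⟩ := key m y hy
  refine ⟨N, fun n hn => ?_⟩
  rw [Real.dist_eq, abs_sub_comm]
  exact (hN n hn).trans_lt hm

lemma ext_measurable {R : unitInterval → unitInterval} (hR : IsR R) : Measurable (ext R) := by
  have h := fe_of_isR hR
  have h1 : Measurable (fun y : Ioc (0 : ℝ) 1 => ext R y) :=
    measurable_of_tendsto_metrizable (fun n => (g_measurable n).comp measurable_subtype_coe)
      (tendsto_pi_nhds.2 fun y => g_tendsto h y.2)
  have h2 : Measurable ((Ioc (0 : ℝ) 1).domRestrict (ext R)) := h1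
  apply measurable_of_restrict_of_restrict_compl (s := Ioc (0 : ℝ) 1) measurableSet_Ioc h2
  have h3 : (Ioc (0 : ℝ) 1)ᶜ.domRestrict (ext R) =
      fun y : ((Ioc (0 : ℝ) 1)ᶜ : Set ℝ) => if (y : ℝ) ≤ 0 then ext R 0 else ext R 1 := by
    funext y
    obtain ⟨y, hy⟩ := y
    show ext R y = if y ≤ 0 then ext R 0 else ext R 1
    split_ifs with h0
    · unfold ext
      rw [projIcc_of_le_left _ h0, projIcc_of_le_left _ le_rfl]
    · have h4 : 1 ≤ y := by
        by_contra h5
        exact hy ⟨not_le.1 h0, (not_le.1 h5).le⟩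
      unfold ext
      rw [projIcc_of_right_le _ h4, projIcc_of_right_le _ le_rfl]
  rw [h3]
  exact Measurable.ite (measurableSet_Iic.preimage measurable_subtype_coe) measurable_const
    measurable_const

end Pool.Agent.R199.Erase
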