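import Pool.Agent.R199.Erase3

/-!
The erasing-substitution interval map: the second iterate preserves Lebesgue measure.
-/

set_option autoImplicit false

open Set Filter Topology MeasureTheory
open scoped ENNReal

namespace Pool.Agent.R199.Erase

/-- Lebesgue measure on the unit interval -/
noncomputable def lam : Measure ℝ := volume.restrict (Ioc 0 1)

instance : IsProbabilityMeasure lam := ⟨by simp [lam]⟩

lemma lam_ae : ∀ᵐ y ∂lam, y ∈ Ioc (0 : ℝ) 1 := ae_restrict_mem measurableSet_Ioc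

lemma lam_Iic (t : ℝ) : lam (Iic t) = ENNReal.ofReal (min t 1) := by
  unfold lam
  rw [Measure.restrict_apply measurableSet_Iic, inter_comm, Ioc_inter_Iic, Real.volume_Ioc,
    sub_zero, min_comm]

noncomputable def S0 (z : ℝ) : ℝ := z / 2
noncomputable def S1 (z : ℝ) : ℝ := (1 + z) / 2

lemma S0_meas : Measurable S0 := measurable_id.div_const 2
lemma S1_meas : Measurable S1 := (measurable_const.add measurable_id).div_const 2
lemma F_meas : Measurable F := measurable_const.sub measurable_id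

lemma map_S0_Iic (μ : Measure ℝ) (t : ℝ) : μ.map S0 (Iic t) = μ (Iic (2 * t)) := by
  rw [Measure.map_apply S0_meas measurableSet_Iic]
  congr 1
  ext z
  simp only [mem_preimage, mem_Iic, S0]
  constructor <;> intro h <;> linarith

lemma map_S1_Iic (μ : Measure ℝ) (t : ℝ) : μ.map S1 (Iic t) = μ (Iic (2 * t - 1)) := by
  rw [Measure.map_apply S1_meas measurableSet_Iic]
  congr 1
  ext z
  simp only [mem_preimage, mem_Iic, S1]
  constructor <;> intro h <;> linarith

lemma lam_fe (t : ℝ) : 2 * lam (Iic t) = lam (Iic (2 * t)) + lam (Iic (2 * t - 1)) := by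
  rw [lam_Iic, lam_Iic, lam_Iic]
  rcases le_or_gt t 0 with h | h
  · rw [ENNReal.ofReal_of_nonpos (by rw [min_le_iff]; left; exact h),
      ENNReal.ofReal_of_nonpos (by rw [min_le_iff]; left; linarith),
      ENNReal.ofReal_of_nonpos (by rw [min_le_iff]; left; linarith)]
    simp
  rcases le_or_gt t (1 / 2) with h1 | h1
  · rw [ENNReal.ofReal_of_nonpos (show min (2 * t - 1) 1 ≤ 0 by rw [min_le_iff]; left; linarith),
      min_eq_left (show t ≤ 1 by linarith), min_eq_left (show 2 * t ≤ 1 by linarith), add_zero,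
      ENNReal.ofReal_mul (by norm_num)]
    norm_num
  rcases le_or_gt t 1 with h2 | h2
  · rw [min_eq_left h2, min_eq_right (show (1 : ℝ) ≤ 2 * t by linarith),
      min_eq_left (show 2 * t - 1 ≤ 1 by linarith), ← ENNReal.ofReal_add (by norm_num) (by linarith),
      show (1 : ℝ) + (2 * t - 1) = 2 * t by ring, ENNReal.ofReal_mul (by norm_num)]
    norm_num
  · rw [min_eq_right h2.le, min_eq_right (by linarith), min_eq_right (by linarith),
      ENNReal.ofReal_one]
    norm_num

lemma two_lam : (2 : ℝ≥0∞) • lam = lam.map S0 + lam.map S1 := by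
  have : IsFiniteMeasure ((2 : ℝ≥0∞) • lam) :=
    ⟨by
      rw [Measure.smul_apply, measure_univ, smul_eq_mul, mul_one]
      norm_num⟩
  apply Measure.ext_of_Iic
  intro t
  rw [Measure.smul_apply, smul_eq_mul, Measure.add_apply, map_S0_Iic, map_S1_Iic, lam_fe]

/-- uniqueness of the self-similar measure -/
lemma eq_lam (μ : Measure ℝ) [IsProbabilityMeasure μ] (h0 : ∀ᵐ y ∂μ, y ∈ Icc (0 : ℝ) 1)
    (h : (2 : ℝ≥0∞) • μ = μ.map S0 + μ.map S1) : μ = lam := by
  have key : ∀ (ν : Measure ℝ) [IsProbabilityMeasure ν], (∀ᵐ y ∂ν, y ∈ Icc (0 : ℝ) 1) →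
      (∀ t, 2 * ν (Iic t) = ν (Iic (2 * t)) + ν (Iic (2 * t - 1))) →
      (∀ t < 0, (ν (Iic t)).toReal = 0) ∧ (∀ t, 1 ≤ t → (ν (Iic t)).toReal = 1) ∧
      ∀ t, 2 * (ν (Iic t)).toReal = (ν (Iic (2 * t))).toReal + (ν (Iic (2 * t - 1))).toReal := by
    intro ν _ hν hfe
    refine ⟨fun t ht => ?_, fun t ht => ?_, fun t => ?_⟩
    · have : ν (Iic t) = 0 := by
        rw [measure_eq_zero_iff_ae_notMem]
        filter_upwards [hν] with y hy h1
        have h2 : y ≤ t := h1
        linarith [hy.1]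
      rw [this, ENNReal.toReal_zero]
    · have : ν (Iic t) = 1 := by
        rw [← measure_univ (μ := ν)]
        apply measure_congr
        filter_upwards [hν] with y hy
        apply propext
        exact ⟨fun _ => trivial, fun _ => hy.2.trans ht⟩
      rw [this, ENNReal.toReal_one]
    · have h1 := congrArg ENNReal.toReal (hfe t)
      rw [ENNReal.toReal_mul, ENNReal.toReal_add (measure_ne_top _ _) (measure_ne_top _ _)] at h1
      simpa using h1
  obtain ⟨a1, a2, a3⟩ := key μ h0 (by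
    intro t
    have := congrArg (fun m : Measure ℝ => m (Iic t)) h
    simp only [Measure.smul_apply, smul_eq_mul, Measure.add_apply, map_S0_Iic, map_S1_Iic] at this
    exact this)
  obtain ⟨b1, b2, b3⟩ := key lam (lam_ae.mono fun y hy => Ioc_subset_Icc_self hy) lam_fe
  have hd : ∀ n : ℕ, ∀ t, |(μ (Iic t)).toReal - (lam (Iic t)).toReal| ≤ (1 / 2) ^ n := by
    intro n
    induction n with
    | zero =>
      intro t
      have h1 : (μ (Iic t)).toReal ≤ 1 := by
        rw [← ENNReal.toReal_one]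
        exact ENNReal.toReal_mono ENNReal.one_ne_top prob_le_one
      have h2 : (lam (Iic t)).toReal ≤ 1 := by
        rw [← ENNReal.toReal_one]
        exact ENNReal.toReal_mono ENNReal.one_ne_top prob_le_one
      have h3 := ENNReal.toReal_nonneg (a := μ (Iic t))
      have h4 := ENNReal.toReal_nonneg (a := lam (Iic t))
      rw [pow_zero, abs_le]
      exact ⟨by linarith, by linarith⟩
    | succ n ih =>
      intro t
      have hpos : (0 : ℝ) ≤ (1 / 2) ^ (n + 1) := by positivity
      rcases lt_or_ge t 0 with h1 | h1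
      · rw [a1 t h1, b1 t h1, sub_self, abs_zero]
        exact hpos
      rcases le_or_gt 1 t with h2 | h2
      · rw [a2 t h2, b2 t h2, sub_self, abs_zero]
        exact hpos
      have h3 := a3 t
      have h4 := b3 t
      rcases lt_or_ge t (1 / 2) with h5 | h5
      · rw [a1 (2 * t - 1) (by linarith)] at h3
        rw [b1 (2 * t - 1) (by linarith)] at h4
        have h6 : (μ (Iic t)).toReal - (lam (Iic t)).toReal =
          ((μ (Iic (2 * t))).toReal - (lam (Iic (2 * t))).toReal) / 2 := by linarith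
        rw [h6, abs_div, abs_two, pow_succ]
        linarith [ih (2 * t)]
      · rw [a2 (2 * t) (by linarith)] at h3
        rw [b2 (2 * t) (by linarith)] at h4
        have h6 : (μ (Iic t)).toReal - (lam (Iic t)).toReal =
          ((μ (Iic (2 * t - 1))).toReal - (lam (Iic (2 * t - 1))).toReal) / 2 := by linarith
        rw [h6, abs_div, abs_two, pow_succ]
        linarith [ih (2 * t - 1)]
  apply Measure.ext_of_Iic
  intro t
  rw [← ENNReal.toReal_eq_toReal_iff' (measure_ne_top _ _) (measure_ne_top _ _)]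
  have h1 : Tendsto (fun n : ℕ => (1 / 2 : ℝ) ^ n) atTop (𝓝 0) :=
    tendsto_pow_atTop_nhds_zero_of_lt_one (by norm_num) (by norm_num)
  have h2 : |(μ (Iic t)).toReal - (lam (Iic t)).toReal| ≤ 0 := ge_of_tendsto' h1 fun n => hd n t
  exact sub_eq_zero.1 (abs_nonpos_iff.1 h2)

/-! ### the images of Lebesgue measure -/

section
variable {r : ℝ → ℝ}

lemma ae_map_mem {μ : Measure ℝ} {f : ℝ → ℝ} (hf : Measurable f) {s : Set ℝ}
    (hs : MeasurableSet s) : (∀ᵐ y ∂μ.map f, y ∈ s) ↔ ∀ᵐ x ∂μ, f x ∈ s :=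
  ae_map_iff (p := fun y => y ∈ s) hf.aemeasurable hs

/-- the image of Lebesgue measure -/
noncomputable def mu1 (r : ℝ → ℝ) : Measure ℝ := lam.map r

lemma mu1_fe (h : FE r) (hr : Measurable r) :
    (2 : ℝ≥0∞) • mu1 r = (mu1 r).map F + (mu1 r).map (S0 ∘ F) := by
  unfold mu1
  rw [← Measure.map_smul, two_lam, Measure.map_add _ _ hr, Measure.map_map hr S0_meas,
    Measure.map_map hr S1_meas, Measure.map_map F_meas hr,
    Measure.map_map (S0_meas.comp F_meas) hr]
  congr 1
  · apply Measure.map_congr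
    filter_upwards [lam_ae] with y hy
    exact h.half y hy
  · apply Measure.map_congr
    filter_upwards [lam_ae] with y hy
    exact h.half' y hy

lemma mu1_prob (hr : Measurable r) : IsProbabilityMeasure (mu1 r) :=
  Measure.isProbabilityMeasure_map hr.aemeasurable

lemma mu1_singleton (h : FE r) (hr : Measurable r) {a : ℝ} (ha : a ∉ Icc (0 : ℝ) 1) :
    mu1 r {a} = 0 := by
  unfold mu1
  rw [Measure.map_apply hr (measurableSet_singleton a)]
  have : r ⁻¹' {a} = ∅ := by
    rw [eq_empty_iff_forall_notMem]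
    intro y hy
    exact ha (hy ▸ h.mem y)
  rw [this, measure_empty]

lemma mu1_zero_one (h : FE r) (hr : Measurable r) : mu1 r {0} = 0 ∧ mu1 r {1} = 0 := by
  have := mu1_prob hr
  have key : ∀ a : ℝ, 2 * mu1 r {a} = mu1 r {1 - a} + mu1 r {1 - 2 * a} := by
    intro a
    have h1 := congrArg (fun m : Measure ℝ => m {a}) (mu1_fe h hr)
    simp only [Measure.smul_apply, smul_eq_mul, Measure.add_apply] at h1
    rw [h1, Measure.map_apply F_meas (measurableSet_singleton a),
      Measure.map_apply (S0_meas.comp F_meas) (measurableSet_singleton a)]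
    congr 2
    · ext z
      simp only [mem_preimage, mem_singleton_iff, F]
      constructor <;> intro h <;> linarith
    · ext z
      simp only [mem_preimage, mem_singleton_iff, F, S0, Function.comp_apply]
      constructor <;> intro h <;> linarith
  have k0 := key 0
  have k1 := key 1
  rw [show (1 : ℝ) - 1 = 0 by norm_num, show (1 : ℝ) - 2 * 1 = -1 by norm_num,
    mu1_singleton h hr (a := -1) (by simp), add_zero] at k1
  rw [show (1 : ℝ) - 0 = 1 by norm_num, show (1 : ℝ) - 2 * 0 = 1 by norm_num, ← two_mul] at k0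
  have k2 := congrArg ENNReal.toReal k0
  have k3 := congrArg ENNReal.toReal k1
  rw [ENNReal.toReal_mul, ENNReal.toReal_mul] at k2
  rw [ENNReal.toReal_mul] at k3
  norm_num at k2 k3
  have k4 : (mu1 r {0}).toReal = 0 := by linarith
  have k5 : (mu1 r {1}).toReal = 0 := by linarith
  exact ⟨(ENNReal.toReal_eq_zero_iff _).1 k4 |>.resolve_right (measure_ne_top _ _),
    (ENNReal.toReal_eq_zero_iff _).1 k5 |>.resolve_right (measure_ne_top _ _)⟩

lemma mu1_ae (h : FE r) (hr : Measurable r) : ∀ᵐ y ∂(mu1 r), y ∈ Ioo (0 : ℝ) 1 := by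
  have h1 : ∀ᵐ y ∂(mu1 r), y ∈ Icc (0 : ℝ) 1 := by
    unfold mu1
    rw [ae_map_mem hr measurableSet_Icc]
    exact Eventually.of_forall fun y => h.mem y
  obtain ⟨h2, h3⟩ := mu1_zero_one h hr
  have h2' : ∀ᵐ y ∂(mu1 r), y ∉ ({0} : Set ℝ) := measure_eq_zero_iff_ae_notMem.1 h2
  have h3' : ∀ᵐ y ∂(mu1 r), y ∉ ({1} : Set ℝ) := measure_eq_zero_iff_ae_notMem.1 h3
  filter_upwards [h1, h2', h3'] with y hy hy0 hy1
  exact ⟨lt_of_le_of_ne hy.1 fun h => hy0 h.symm, lt_of_le_of_ne hy.2 fun h => hy1 h⟩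

lemma F_F (z : ℝ) : F (F z) = z := by
  unfold F
  ring

lemma F_comp_F : F ∘ F = id := by
  funext z
  exact F_F z

lemma two_smul_cancel {μ ν : Measure ℝ} (h : (2 : ℝ≥0∞) • μ = (2 : ℝ≥0∞) • ν) : μ = ν := by
  ext s _
  have h1 := congrArg (fun m : Measure ℝ => m s) h
  simp only [Measure.smul_apply, smul_eq_mul] at h1
  exact (ENNReal.mul_right_inj (by norm_num) (by norm_num)).1 h1

theorem mu2 (h : FE r) (hr : Measurable r) : (mu1 r).map r = lam ∧ lam.map F = lam := by
  have hp := mu1_prob hr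
  have hae := mu1_ae h hr
  have e1 := mu1_fe h hr
  generalize mu1 r = μ₁ at hp hae e1 ⊢
  obtain ⟨μ₂, hμ₂⟩ : ∃ m, m = μ₁.map r := ⟨_, rfl⟩
  obtain ⟨ν, hν⟩ : ∃ m, m = (μ₁.map F).map r := ⟨_, rfl⟩
  rw [← hμ₂]
  have hae' : ∀ᵐ y ∂(μ₁.map F), y ∈ Ioc (0 : ℝ) 1 := by
    rw [ae_map_mem F_meas measurableSet_Ioc]
    filter_upwards [hae] with y hy
    exact ⟨by unfold F; linarith [hy.2], by unfold F; linarith [hy.1]⟩
  -- `2 μ₂ = ν + F ν`
  have e2 : (2 : ℝ≥0∞) • μ₂ = ν + ν.map F := by
    rw [hμ₂, ← Measure.map_smul, e1, Measure.map_add _ _ hr]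
    congr 1
    · exact hν.symm
    rw [← Measure.map_map S0_meas F_meas, Measure.map_map hr S0_meas, hν,
      Measure.map_map F_meas hr]
    apply Measure.map_congr
    filter_upwards [hae'] with y hy
    exact h.half y hy
  have hFF : ∀ μ : Measure ℝ, (μ.map F).map F = μ := by
    intro μ
    rw [Measure.map_map F_meas F_meas, F_comp_F, Measure.map_id]
  have e3 : μ₂.map F = μ₂ := by
    apply two_smul_cancel
    rw [← Measure.map_smul, e2, Measure.map_add _ _ F_meas, hFF, add_comm]
  -- `2 F μ₁ = μ₁ + S1 μ₁`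
  have hS : ∀ μ : Measure ℝ, (μ.map (S0 ∘ F)).map F = μ.map S1 := by
    intro μ
    rw [Measure.map_map F_meas (S0_meas.comp F_meas)]
    congr 1
    funext z
    simp only [Function.comp_apply, F, S0, S1]
    ring
  have e4 : (2 : ℝ≥0∞) • μ₁.map F = μ₁ + μ₁.map S1 := by
    rw [← Measure.map_smul, e1, Measure.map_add _ _ F_meas, hFF, hS]
  have e5 : (2 : ℝ≥0∞) • ν = μ₂ + μ₂.map S0 := by
    rw [hν, ← Measure.map_smul, e4, Measure.map_add _ _ hr]
    congr 1
    · exact hμ₂.symm
    rw [Measure.map_map hr S1_meas]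
    rw [← e3, Measure.map_map S0_meas F_meas, hμ₂, Measure.map_map (S0_meas.comp F_meas) hr]
    apply Measure.map_congr
    filter_upwards [hae] with y hy
    exact h.half' y (Ioo_subset_Ioc_self hy)
  have e6 : (2 : ℝ≥0∞) • μ₂ = μ₂.map S0 + μ₂.map S1 := by
    have e7 : (μ₂.map S0).map F = μ₂.map S1 := by
      nth_rw 1 [← e3]
      rw [Measure.map_map S0_meas F_meas, hS]
    have e8 : (2 : ℝ≥0∞) • ((2 : ℝ≥0∞) • μ₂) = (2 : ℝ≥0∞) • μ₂ + (μ₂.map S0 + μ₂.map S1) := by
      have e10 : (2 : ℝ≥0∞) • ν.map F = μ₂ + μ₂.map S1 := by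
        rw [← Measure.map_smul, e5, Measure.map_add _ _ F_meas, e3, e7]
      nth_rw 1 [e2]
      rw [smul_add, e10, e5, two_smul ℝ≥0∞ μ₂]
      abel
    have hp2 : IsProbabilityMeasure μ₂ := by
      rw [hμ₂]
      exact Measure.isProbabilityMeasure_map hr.aemeasurable
    ext s _
    have h1 := congrArg (fun m : Measure ℝ => m s) e8
    simp only [Measure.smul_apply, smul_eq_mul, Measure.add_apply] at h1 ⊢
    have h2 : 2 * μ₂ s ≠ ∞ := ENNReal.mul_ne_top (by norm_num) (measure_ne_top _ _)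
    rw [two_mul (2 * μ₂ s)] at h1
    exact (ENNReal.add_right_inj h2).1 h1
  have hp2 : IsProbabilityMeasure μ₂ := by
    rw [hμ₂]
    exact Measure.isProbabilityMeasure_map hr.aemeasurable
  have e9 : μ₂ = lam := by
    apply eq_lam μ₂ _ e6
    rw [hμ₂, ae_map_mem hr measurableSet_Icc]
    exact Eventually.of_forall fun y => h.mem y
  exact ⟨e9, by rw [← e9, e3]⟩

end

end Pool.Agent.R199.Erase
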