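import Pool.Agent.R199.Erase4

/-!
The erasing-substitution interval map: almost all orbits are dense.
-/

set_option autoImplicit false

open Set Filter Topology MeasureTheory
open scoped ENNReal

namespace Pool.Agent.R199.Erase

variable {r : ℝ → ℝ}

/-- normalized Lebesgue measure on a dyadic interval -/
noncomputable def lamW (w : List Bool) : Measure ℝ := lam.map (S w)

lemma S_meas (w : List Bool) : Measurable (S w) := by
  have : S w = fun y => S w 0 + y / 2 ^ w.length := funext fun y => S_affine w y
  rw [this]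
  exact measurable_const.add (measurable_id.div_const _)

lemma S_comp (w u : List Bool) : S (w ++ u) = S w ∘ S u := funext fun y => S_append w u y

lemma lamW_nil : lamW [] = lam := by
  unfold lamW
  have : S [] = id := rfl
  rw [this, Measure.map_id]

instance (w : List Bool) : IsProbabilityMeasure (lamW w) :=
  Measure.isProbabilityMeasure_map (S_meas w).aemeasurable

lemma lam_map_F_iter (h : FE r) (hr : Measurable r) (n : ℕ) : lam.map F^[n] = lam := by
  induction n with
  | zero =>
    rw [Function.iterate_zero, Measure.map_id]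
  | succ n ih =>
    rw [Function.iterate_succ', ← Measure.map_map F_meas (F_meas.iterate n), ih, (mu2 h hr).2]

lemma map_r_lamW (h : FE r) (hr : Measurable r) (w : List Bool) :
    (lamW w).map r = ((mu1 r).map F^[w.length]).map (S (rhoW w)) := by
  unfold lamW mu1
  rw [Measure.map_map hr (S_meas w), Measure.map_map (F_meas.iterate _) hr,
    Measure.map_map (S_meas _) ((F_meas.iterate _).comp hr)]
  apply Measure.map_congr
  filter_upwards [lam_ae] with y hy
  exact r_S h w hy

lemma map_r_mu (h : FE r) (hr : Measurable r) (w : List Bool) :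
    ((mu1 r).map (S w)).map r = lamW (rhoW w) := by
  have h1 : lam = ((mu1 r).map r).map F^[w.length] := by
    rw [(mu2 h hr).1, lam_map_F_iter h hr]
  unfold lamW
  nth_rw 1 [h1]
  rw [Measure.map_map hr (S_meas w), Measure.map_map (F_meas.iterate _) hr,
    Measure.map_map (S_meas _) ((F_meas.iterate _).comp hr)]
  apply Measure.map_congr
  filter_upwards [mu1_ae h hr] with y hy
  exact r_S h w (Ioo_subset_Ioc_self hy)

lemma F_iter_even {n : ℕ} (hn : Even n) : F^[n] = id := by
  obtain ⟨k, rfl⟩ := hn
  rw [← two_mul, Function.iterate_mul]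
  have : F^[2] = id := F_comp_F
  rw [this, Function.iterate_id]

lemma map_T_lamW (h : FE r) (hr : Measurable r) {w : List Bool} (hw : Even w.length) :
    (lamW w).map (r ∘ r) = lamW (rhoW (rhoW w)) := by
  rw [← Measure.map_map hr hr, map_r_lamW h hr, F_iter_even hw, Measure.map_id, map_r_mu h hr]

lemma lamW_split (w : List Bool) :
    (2 : ℝ≥0∞) • lamW w = lamW (w ++ [false]) + lamW (w ++ [true]) := by
  have h0 : S [false] = S0 := by
    funext y
    simp [S, dig, S0]
  have h1 : S [true] = S1 := by
    funext y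
    simp [S, dig, S1]
  unfold lamW
  rw [← Measure.map_smul, two_lam, Measure.map_add _ _ (S_meas w), S_comp, S_comp, h0, h1,
    Measure.map_map (S_meas w) S0_meas, Measure.map_map (S_meas w) S1_meas]

lemma rhoW_length_count (w : List Bool) : (rhoW w).length = w.count true := by
  induction w with
  | nil => rfl
  | cons a w ih => cases a <;> simp [rhoW, ih]

lemma rhoW_rhoW_length_half : ∀ w : List Bool, 2 * (rhoW (rhoW w)).length ≤ w.length + 1
  | [] => by simp [rhoW]
  | [a] => by cases a <;> simp [rhoW]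
  | a :: b :: w => by
    have ih := rhoW_rhoW_length_half w
    rw [rhoW_length_count] at ih ⊢
    have h1 := map_not_involutive (rhoW w)
    cases a <;> cases b <;> simp only [rhoW, List.map_cons, Bool.not_false, h1,
      List.count_cons, List.length_cons] <;> simp <;> omega

/-- the measure of the cylinder `w` is spread out by the iterates of `r ∘ r` -/
def Good (r : ℝ → ℝ) (w : List Bool) : Prop :=
  ∃ n : ℕ, ∀ m ≥ n, lam ≤ (2 : ℝ≥0∞) • (lamW w).map (r ∘ r)^[m]

lemma lam_map_T (h : FE r) (hr : Measurable r) : lam.map (r ∘ r) = lam := by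
  have := map_T_lamW h hr (w := []) ⟨0, rfl⟩
  simpa [lamW_nil, rhoW] using this

lemma mono_T (h : FE r) (hr : Measurable r) {μ : Measure ℝ} {n : ℕ}
    (hn : lam ≤ (2 : ℝ≥0∞) • μ.map (r ∘ r)^[n]) {m : ℕ} (hm : n ≤ m) :
    lam ≤ (2 : ℝ≥0∞) • μ.map (r ∘ r)^[m] := by
  induction m, hm using Nat.le_induction with
  | base => exact hn
  | succ m _ ih =>
    have hT : Measurable (r ∘ r) := hr.comp hr
    have h1 := Measure.map_mono ih hT
    rw [lam_map_T h hr, Measure.map_smul, Measure.map_map hT (hT.iterate m),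
      ← Function.iterate_succ'] at h1
    exact h1

lemma good_even (h : FE r) (hr : Measurable r) {w : List Bool} (hw : Even w.length)
    (hg : Good r (rhoW (rhoW w))) : Good r w := by
  have hT : Measurable (r ∘ r) := hr.comp hr
  obtain ⟨n, hn⟩ := hg
  refine ⟨n + 1, fun m hm => ?_⟩
  obtain ⟨m, rfl⟩ : ∃ m', m = m' + 1 := ⟨m - 1, by omega⟩
  rw [Function.iterate_succ, ← Measure.map_map (hT.iterate m) hT, map_T_lamW h hr hw]
  exact hn m (by omega)

lemma good_split {w : List Bool} (hr : Measurable r) (h0 : Good r (w ++ [false]))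
    (h1 : Good r (w ++ [true])) : Good r w := by
  have hT : Measurable (r ∘ r) := hr.comp hr
  obtain ⟨n0, hn0⟩ := h0
  obtain ⟨n1, hn1⟩ := h1
  refine ⟨max n0 n1, fun m hm => ?_⟩
  have k0 := hn0 m ((le_max_left _ _).trans hm)
  have k1 := hn1 m ((le_max_right _ _).trans hm)
  have h2 := congrArg (fun μ : Measure ℝ => μ.map (r ∘ r)^[m]) (lamW_split w)
  simp only [Measure.map_smul, Measure.map_add _ _ (hT.iterate m)] at h2
  intro s
  have k0' := k0 s
  have k1' := k1 s
  have h3 := congrArg (fun μ : Measure ℝ => μ s) h2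
  simp only [Measure.smul_apply, smul_eq_mul, Measure.add_apply] at k0' k1' h3 ⊢
  rw [← ENNReal.mul_le_mul_iff_right (a := 2) (by norm_num) (by norm_num), h3, mul_add, two_mul]
  exact add_le_add k0' k1'

lemma good_one (h : FE r) (hr : Measurable r) (a : Bool) : Good r [a] := by
  have hT : Measurable (r ∘ r) := hr.comp hr
  have h1 : rhoW (rhoW [a, false]) = [] := by cases a <;> simp [rhoW]
  have h2 := map_T_lamW h hr (w := [a, false]) ⟨1, rfl⟩
  rw [h1, lamW_nil] at h2
  refine ⟨1, fun m hm => mono_T h hr ?_ hm⟩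
  rw [Function.iterate_one, ← Measure.map_smul, lamW_split, Measure.map_add _ _ hT]
  show lam ≤ (lamW [a, false]).map (r ∘ r) + _
  rw [h2]
  exact le_add_of_nonneg_right (Measure.zero_le _)

lemma good (h : FE r) (hr : Measurable r) (w : List Bool) : Good r w := by
  induction hn : w.length using Nat.strong_induction_on generalizing w with
  | _ n ih =>
    rcases eq_or_ne w [] with rfl | hw
    · refine ⟨0, fun m _ => ?_⟩
      apply mono_T h hr (n := 0) _ (Nat.zero_le m)
      rw [Function.iterate_zero, Measure.map_id, lamW_nil, two_smul]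
      exact le_add_of_nonneg_right (Measure.zero_le _)
    rcases Nat.even_or_odd w.length with he | ho
    · exact good_even h hr he (ih _ (by rw [← hn]; exact rhoW_rhoW_length_lt hw) _ rfl)
    · rcases le_or_gt w.length 2 with hl | hl
      · have h1 : w.length = 1 := by
          obtain ⟨k, hk⟩ := ho
          omega
        obtain ⟨a, rfl⟩ := List.length_eq_one_iff.1 h1
        exact good_one h hr a
      · have key : ∀ a, Good r (w ++ [a]) := by
          intro a
          have h2 : Even (w ++ [a]).length := by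
            rw [List.length_append, List.length_singleton]
            exact ho.add_one
          have h3 := rhoW_rhoW_length_half (w ++ [a])
          rw [List.length_append, List.length_singleton] at h3
          exact good_even h hr h2 (ih _ (by omega) _ rfl)
        exact good_split hr (key false) (key true)

/-! ### density argument -/

/-- points whose orbit avoids `V` -/
def avoid (r : ℝ → ℝ) (V : Set ℝ) : Set ℝ := {x | ∀ n : ℕ, r^[n] x ∉ V}

lemma avoid_meas (hr : Measurable r) {V : Set ℝ} (hV : MeasurableSet V) :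
    MeasurableSet (avoid r V) := by
  have : avoid r V = ⋂ n : ℕ, (r^[n] ⁻¹' Vᶜ) := by
    ext x
    simp [avoid]
  rw [this]
  exact MeasurableSet.iInter fun n => (hr.iterate n) hV.compl

lemma lamW_avoid (h : FE r) (hr : Measurable r) {V : Set ℝ} (hV : MeasurableSet V)
    (w : List Bool) : lamW w (avoid r V) ≤ 1 - lam V / 2 := by
  obtain ⟨n, hn⟩ := good h hr w
  have hT : Measurable (r ∘ r) := hr.comp hr
  have h1 := hn n le_rfl V
  rw [Measure.smul_apply, smul_eq_mul, Measure.map_apply (hT.iterate n) hV] at h1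
  have h2 : (r ∘ r)^[n] ⁻¹' V ⊆ (avoid r V)ᶜ := by
    intro x hx hx'
    apply hx' (2 * n)
    rw [Function.iterate_mul]
    exact hx
  have h3 : lam V / 2 ≤ lamW w (avoid r V)ᶜ := by
    rw [ENNReal.div_le_iff (by norm_num) (by norm_num), mul_comm]
    exact h1.trans (by gcongr)
  rw [← compl_compl (avoid r V), prob_compl_eq_one_sub (avoid_meas hr hV).compl]
  exact tsub_le_tsub_left h3 1

lemma lamW_apply (w : List Bool) {B : Set ℝ} (hB : MeasurableSet B) :
    lamW w B = ENNReal.ofReal (2 ^ w.length) * volume (B ∩ Ioc (S w 0) (S w 1)) := by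
  have h1 : (S w) ⁻¹' B ∩ Ioc 0 1 = (S w) ⁻¹' (B ∩ Ioc (S w 0) (S w 1)) := by
    ext y
    simp only [mem_inter_iff, mem_preimage, mem_Ioc]
    constructor
    · rintro ⟨h1, h2, h3⟩
      exact ⟨h1, S_strictMono w h2, S_mono w h3⟩
    · rintro ⟨h1, h2, h3⟩
      refine ⟨h1, ?_, ?_⟩
      · by_contra h4
        exact absurd (S_mono w (not_lt.1 h4)) (not_le.2 h2)
      · by_contra h4
        exact absurd (S_strictMono w (not_le.1 h4)) (not_lt.2 h3)
  unfold lamW lam
  rw [Measure.map_apply (S_meas w) hB, Measure.restrict_apply ((S_meas w) hB), h1]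
  have h2 : S w = (fun z => S w 0 + z) ∘ (fun y => (2 ^ w.length : ℝ)⁻¹ * y) := by
    funext y
    simp only [Function.comp_apply]
    rw [S_affine w y]
    ring
  generalize B ∩ Ioc (S w 0) (S w 1) = A
  rw [h2, preimage_comp]
  have h3 : ((2 : ℝ) ^ w.length)⁻¹ ≠ 0 := by positivity
  rw [Real.volume_preimage_mul_left h3, measure_preimage_add, inv_inv,
    abs_of_pos (by positivity)]

lemma volume_avoid (h : FE r) (hr : Measurable r) {V : Set ℝ} (hV : MeasurableSet V)
    (hpos : 0 < lam V) : volume (avoid r V ∩ Ioc 0 1) = 0 := by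
  set N := avoid r V ∩ Ioc 0 1 with hN
  have hae := IsUnifLocDoublingMeasure.ae_tendsto_measure_inter_div (volume : Measure ℝ) N 1
  have hNm : MeasurableSet N := (avoid_meas hr hV).inter measurableSet_Ioc
  rw [← Measure.restrict_eq_zero, ← ae_eq_bot, ← eventually_false_iff_eq_bot]
  filter_upwards [hae, ae_restrict_mem hNm] with x hx hxN
  choose w hw hxw using fun n : ℕ => exists_word (y := x) n
  have hballs : ∀ n, Metric.closedBall (S (w n) (1 / 2)) ((1 / 2) ^ n / 2) =
      Icc (S (w n) 0) (S (w n) 1) := by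
    intro n
    rw [Real.closedBall_eq_Icc, S_affine (w n) (1 / 2), S_affine (w n) 1, hw n]
    have : (1 / 2 : ℝ) ^ n = 1 / 2 ^ n := by rw [div_pow, one_pow]
    rw [this]
    congr 1 <;> ring
  have h1 := hx (l := atTop) (fun n => S (w n) (1 / 2)) (fun n => (1 / 2) ^ n / 2)
    (by
      rw [tendsto_nhdsWithin_iff]
      constructor
      · have : Tendsto (fun n : ℕ => (1 / 2 : ℝ) ^ n / 2) atTop (𝓝 (0 / 2)) :=
          (tendsto_pow_atTop_nhds_zero_of_lt_one (by norm_num) (by norm_num)).div_const 2
        simpa using this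
      · exact Eventually.of_forall fun n => by
          show (0 : ℝ) < (1 / 2) ^ n / 2
          positivity)
    (Eventually.of_forall fun n => by
      rw [one_mul, hballs n]
      have h2 := D_iter_mem hxN.2 n
      rw [hxw n]
      exact ⟨by
        conv_rhs => rw [← hxw n]
        rw [hxw n]
        exact S_mono _ h2.1.le, by
        exact S_mono _ h2.2⟩)
  have h2 : ∀ n, volume (N ∩ Metric.closedBall (S (w n) (1 / 2)) ((1 / 2) ^ n / 2)) /
      volume (Metric.closedBall (S (w n) (1 / 2)) ((1 / 2) ^ n / 2)) ≤ 1 - lam V / 2 := by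
    intro n
    rw [Real.volume_closedBall, show (2 : ℝ) * ((1 / 2) ^ n / 2) = (1 / 2) ^ n by ring, hballs n]
    have h3 := lamW_avoid h hr hV (w n)
    rw [lamW_apply _ (avoid_meas hr hV), hw n] at h3
    have h4 : volume (N ∩ Icc (S (w n) 0) (S (w n) 1)) ≤
        volume (avoid r V ∩ Ioc (S (w n) 0) (S (w n) 1)) := by
      calc volume (N ∩ Icc (S (w n) 0) (S (w n) 1))
          ≤ volume ((avoid r V ∩ Ioc (S (w n) 0) (S (w n) 1)) ∪ {S (w n) 0}) := by
            apply measure_mono
            rintro z ⟨hz, hz1, hz2⟩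
            rcases hz1.eq_or_lt with h5 | h5
            · right
              exact h5.symm
            · left
              exact ⟨hz.1, h5, hz2⟩
        _ ≤ _ + volume {S (w n) 0} := measure_union_le _ _
        _ = _ := by rw [Real.volume_singleton, add_zero]
    have h5 : ENNReal.ofReal ((1 / 2) ^ n) ≠ 0 := by
      rw [ne_eq, ENNReal.ofReal_eq_zero, not_le]
      positivity
    rw [ENNReal.div_le_iff h5 ENNReal.ofReal_ne_top]
    calc volume (N ∩ Icc (S (w n) 0) (S (w n) 1)) ≤
        volume (avoid r V ∩ Ioc (S (w n) 0) (S (w n) 1)) := h4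
      _ = (ENNReal.ofReal (2 ^ n) * volume (avoid r V ∩ Ioc (S (w n) 0) (S (w n) 1))) *
          ENNReal.ofReal ((1 / 2) ^ n) := by
        rw [mul_comm, ← mul_assoc, ← ENNReal.ofReal_mul (by positivity)]
        have : (1 / 2 : ℝ) ^ n * 2 ^ n = 1 := by
          rw [← mul_pow]
          norm_num
        rw [this, ENNReal.ofReal_one, one_mul]
      _ ≤ (1 - lam V / 2) * ENNReal.ofReal ((1 / 2) ^ n) := by gcongr
  have h3 : (1 : ℝ≥0∞) ≤ 1 - lam V / 2 := le_of_tendsto' h1 h2
  have h4 : (1 : ℝ≥0∞) - lam V / 2 < 1 := by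
    apply ENNReal.sub_lt_self (by norm_num) (by norm_num)
    exact (ENNReal.div_pos hpos.ne' (by norm_num)).ne'
  exact absurd h3 (not_le.2 h4)

theorem ae_dense {R : unitInterval → unitInterval} (hR : IsR R) :
    ∀ᵐ x : unitInterval, Dense (range fun n : ℕ => R^[n] x) := by
  have h := fe_of_isR hR
  have hr := ext_measurable hR
  set 𝓑 := TopologicalSpace.countableBasis unitInterval with h𝓑
  have hB := TopologicalSpace.isBasis_countableBasis unitInterval
  have hc := TopologicalSpace.countable_countableBasis unitInterval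
  have key : ∀ V : Set unitInterval, IsOpen V → V.Nonempty →
      ∀ᵐ x : unitInterval, ∃ n : ℕ, R^[n] x ∈ V := by
    intro V hV hne
    obtain ⟨v, hv⟩ := exists_cylinder hV hne
    have hV' : MeasurableSet (Ioc (S v 0) (S v 1)) := measurableSet_Ioc
    have hpos : 0 < lam (Ioc (S v 0) (S v 1)) := by
      unfold lam
      rw [Measure.restrict_apply hV']
      have h1 : Ioc (S v 0) (S v 1) ⊆ Ioc 0 1 :=
        Ioc_subset_Ioc (S_nonneg v) (S_one_le v)
      rw [inter_eq_self_of_subset_left h1, Real.volume_Ioc, ENNReal.ofReal_pos]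
      have := S_strictMono v (zero_lt_one (α := ℝ))
      linarith
    have h1 := volume_avoid h hr hV' hpos
    have h2 : ∀ᵐ y ∂(volume.restrict unitInterval : Measure ℝ),
        ∃ n : ℕ, (ext R)^[n] y ∈ Ioc (S v 0) (S v 1) := by
      rw [ae_restrict_iff' measurableSet_Icc]
      have h3 : ∀ᵐ y : ℝ, y ∉ avoid (ext R) (Ioc (S v 0) (S v 1)) ∩ Ioc 0 1 :=
        measure_eq_zero_iff_ae_notMem.1 h1
      have h4 : ∀ᵐ y : ℝ, y ∉ ({0} : Set ℝ) :=
        measure_eq_zero_iff_ae_notMem.1 Real.volume_singleton
      filter_upwards [h3, h4] with y hy hy0 hy1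
      by_contra hcon
      push Not at hcon
      exact hy ⟨hcon, lt_of_le_of_ne hy1.1 fun h5 => hy0 h5.symm, hy1.2⟩
    have h3 := unitInterval.measurePreserving_coe.quasiMeasurePreserving.ae h2
    filter_upwards [h3] with x hx
    obtain ⟨n, hn⟩ := hx
    refine ⟨n, ?_⟩
    rw [ext_iterate] at hn
    -- the point is in the cylinder
    have hz : ∃ z ∈ Icc (0 : ℝ) 1, ((R^[n] x : unitInterval) : ℝ) = S v z := by
      refine ⟨((R^[n] x : unitInterval) - S v 0) * 2 ^ v.length, ⟨?_, ?_⟩, ?_⟩
      · have := hn.1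
        have : (0 : ℝ) < 2 ^ v.length := by positivity
        nlinarith [hn.1]
      · have h5 := hn.2
        rw [S_affine v 1] at h5
        have hp : (0 : ℝ) < 2 ^ v.length := by positivity
        have h6 : ((R^[n] x : unitInterval) : ℝ) - S v 0 ≤ 1 / 2 ^ v.length := by linarith
        rwa [le_div_iff₀ hp] at h6
      · rw [S_affine]
        field_simp
        ring
    obtain ⟨z, hz, hz'⟩ := hz
    exact hv _ z hz hz'
  have h1 : ∀ᵐ x : unitInterval, ∀ V ∈ {V | V ∈ 𝓑 ∧ V.Nonempty}, ∃ n : ℕ, R^[n] x ∈ V := by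
    rw [ae_ball_iff (hc.mono fun V hV => hV.1)]
    intro V hV
    exact key V (hB.isOpen hV.1) hV.2
  filter_upwards [h1] with x hx
  rw [hB.dense_iff]
  intro V hV hne
  obtain ⟨n, hn⟩ := hx V ⟨hV, hne⟩
  exact ⟨R^[n] x, hn, ⟨n, rfl⟩⟩

end Pool.Agent.R199.Erase
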