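import Mathlib

/-!
Weighted composition operators on `C^∞(Ω)`: definitions and first properties.
-/

set_option autoImplicit false

open Set Filter Topology
open scoped ContDiff

namespace Pool.Agent.R199.WComp

/-- Euclidean `d`-space. -/
abbrev E (d : ℕ) := EuclideanSpace ℝ (Fin d)

/-- The space `C^∞(Ω, 𝕜)` of the smooth `𝕜`-valued functions on `Ω`. A smooth function on `Ω` is
represented by its extension by zero to the whole space. -/
structure SmoothFun {d : ℕ} (𝕜 : Type) [RCLike 𝕜] (Ω : Set (E d)) where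
  toFun : E d → 𝕜
  smooth : ContDiffOn ℝ ∞ toFun Ω
  eq_zero : ∀ x ∉ Ω, toFun x = 0

variable {d : ℕ} {𝕜 : Type} [RCLike 𝕜] {Ω : Set (E d)}

/-- The basic neighbourhood of `f` given by a compact set `K`, an order `n` and `ε`: all `g` such
that the derivatives of `g - f` of order at most `n` have norm less than `ε` at all points
of `K`. -/
def nhd (f : SmoothFun 𝕜 Ω) (K : Set (E d)) (n : ℕ) (ε : ℝ) : Set (SmoothFun 𝕜 Ω) :=
  {g | ∀ x ∈ K, ∀ k ≤ n, ‖iteratedFDeriv ℝ k (fun y => g.1 y - f.1 y) x‖ < ε}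

lemma nhd_mono (f : SmoothFun 𝕜 Ω) {K K' : Set (E d)} {n n' : ℕ} {ε ε' : ℝ} (hK : K' ⊆ K)
    (hn : n' ≤ n) (hε : ε ≤ ε') : nhd f K n ε ⊆ nhd f K' n' ε' := fun _ hg x hx k hk =>
  (hg x (hK hx) k (hk.trans hn)).trans_le hε

/-- The Fréchet topology of `C^∞(Ω, 𝕜)`, that is the topology of locally uniform convergence of
all derivatives: a set is open if together with every `f` it contains a basic neighbourhood of `f`
given by some compact `K ⊆ Ω`, some order `n` and some `ε > 0`. -/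
instance : TopologicalSpace (SmoothFun 𝕜 Ω) where
  IsOpen U := ∀ f ∈ U, ∃ K ⊆ Ω, IsCompact K ∧ ∃ (n : ℕ) (ε : ℝ), 0 < ε ∧ nhd f K n ε ⊆ U
  isOpen_univ := fun _ _ => ⟨∅, empty_subset _, isCompact_empty, 0, 1, one_pos, subset_univ _⟩
  isOpen_inter := by
    rintro U V hU hV f ⟨hfU, hfV⟩
    obtain ⟨K, hK, hKc, n, ε, hε, h⟩ := hU f hfU
    obtain ⟨K', hK', hKc', n', ε', hε', h'⟩ := hV f hfV
    refine ⟨K ∪ K', union_subset hK hK', hKc.union hKc', max n n', min ε ε', lt_min hε hε', ?_⟩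
    exact subset_inter
      ((nhd_mono f subset_union_left (le_max_left _ _) (min_le_left _ _)).trans h)
      ((nhd_mono f subset_union_right (le_max_right _ _) (min_le_right _ _)).trans h')
  isOpen_sUnion := by
    rintro 𝒰 h𝒰 f ⟨U, hU, hf⟩
    obtain ⟨K, hK, hKc, n, ε, hε, h⟩ := h𝒰 U hU f hf
    exact ⟨K, hK, hKc, n, ε, hε, h.trans (subset_sUnion_of_mem hU)⟩

lemma isOpen_def {U : Set (SmoothFun 𝕜 Ω)} : IsOpen U ↔
    ∀ f ∈ U, ∃ K ⊆ Ω, IsCompact K ∧ ∃ (n : ℕ) (ε : ℝ), 0 < ε ∧ nhd f K n ε ⊆ U := Iff.rfl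

/-- The weighted composition operator `f ↦ w · (f ∘ ψ)` on `C^∞(Ω, 𝕜)`, for smooth
`w : Ω → 𝕜` and smooth `ψ : Ω → Ω`. -/
noncomputable def wcomp (w : E d → 𝕜) (ψ : E d → E d) (hw : ContDiffOn ℝ ∞ w Ω)
    (hψ : ContDiffOn ℝ ∞ ψ Ω) (hm : MapsTo ψ Ω Ω) (f : SmoothFun 𝕜 Ω) : SmoothFun 𝕜 Ω :=
  ⟨Ω.indicator fun x => w x * f.1 (ψ x),
    (hw.mul (f.2.comp hψ hm)).congr fun _ hx => indicator_of_mem hx _,
    fun _ hx => indicator_of_notMem hx _⟩

/-- `T` is (topologically) transitive. -/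
def IsTransitive {X : Type} [TopologicalSpace X] (T : X → X) : Prop :=
  ∀ U V : Set X, IsOpen U → U.Nonempty → IsOpen V → V.Nonempty →
    ∃ n : ℕ, (T^[n] '' U ∩ V).Nonempty

/-- `T` is (topologically) mixing. -/
def IsMixing {X : Type} [TopologicalSpace X] (T : X → X) : Prop :=
  ∀ U V : Set X, IsOpen U → U.Nonempty → IsOpen V → V.Nonempty →
    ∃ N : ℕ, ∀ n ≥ N, (T^[n] '' U ∩ V).Nonempty

/-- `T` is chaotic: transitive with a dense set of periodic points. -/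
def IsChaotic {X : Type} [TopologicalSpace X] (T : X → X) : Prop :=
  IsTransitive T ∧ Dense {x : X | ∃ n : ℕ, 1 ≤ n ∧ T^[n] x = x}

/-! ### the topology -/

lemma contDiffAt_of (hΩ : IsOpen Ω) (f : SmoothFun 𝕜 Ω) {x : E d} (hx : x ∈ Ω) :
    ContDiffAt ℝ ∞ f.1 x := (f.2 x hx).contDiffAt (hΩ.mem_nhds hx)

lemma isOpen_nhd (hΩ : IsOpen Ω) (f : SmoothFun 𝕜 Ω) {K : Set (E d)} (hK : K ⊆ Ω)
    (hKc : IsCompact K) (n : ℕ) (ε : ℝ) : IsOpen (nhd f K n ε) := by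
  rw [isOpen_def]
  intro g hg
  rcases K.eq_empty_or_nonempty with rfl | hne
  · exact ⟨∅, empty_subset _, isCompact_empty, 0, 1, one_pos, fun h _ x hx => absurd hx (by simp)⟩
  have hcont : ∀ k : ℕ, ContinuousOn
      (fun x => ‖iteratedFDeriv ℝ k (fun y => g.1 y - f.1 y) x‖) K := by
    intro k x hx
    have h1 : ContDiffAt ℝ ∞ (fun y => g.1 y - f.1 y) x :=
      (contDiffAt_of hΩ g (hK hx)).sub (contDiffAt_of hΩ f (hK hx))
    have h2 : ContinuousAt (iteratedFDeriv ℝ k (fun y => g.1 y - f.1 y)) x := by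
      have := h1.iteratedFDeriv_right (m := 0) (i := k) (by
        rw [zero_add]
        exact_mod_cast le_top)
      exact this.continuousAt
    exact h2.norm.continuousWithinAt
  have hmax : ∀ k : ℕ, ∃ δ : ℝ, 0 < δ ∧ (k ≤ n → ∀ x ∈ K,
      ‖iteratedFDeriv ℝ k (fun y => g.1 y - f.1 y) x‖ ≤ ε - δ) := by
    intro k
    obtain ⟨x₀, hx₀, hmax⟩ := hKc.exists_isMaxOn hne (hcont k)
    by_cases hk : k ≤ n
    · refine ⟨ε - ‖iteratedFDeriv ℝ k (fun y => g.1 y - f.1 y) x₀‖, ?_, ?_⟩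
      · have := hg x₀ hx₀ k hk
        linarith
      · intro _ x hx
        have := hmax hx
        simp only [mem_ofPred_eq] at this
        linarith
    · exact ⟨1, one_pos, fun h => absurd h hk⟩
  choose δ hδ hδ' using hmax
  obtain ⟨k₀, -, hk₀⟩ := Finset.exists_min_image (Finset.range (n + 1)) δ ⟨0, by simp⟩
  refine ⟨K, hK, hKc, n, δ k₀, hδ k₀, fun h hh x hx k hk => ?_⟩
  have h1 : (fun y => h.1 y - f.1 y) = (fun y => h.1 y - g.1 y) + fun y => g.1 y - f.1 y := by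
    funext y
    simp
  have hh1 : ContDiffAt ℝ k (fun y => h.1 y - g.1 y) x :=
    ((contDiffAt_of hΩ h (hK hx)).sub (contDiffAt_of hΩ g (hK hx))).of_le (by exact_mod_cast le_top)
  have hh2 : ContDiffAt ℝ k (fun y => g.1 y - f.1 y) x :=
    ((contDiffAt_of hΩ g (hK hx)).sub (contDiffAt_of hΩ f (hK hx))).of_le (by exact_mod_cast le_top)
  rw [h1, iteratedFDeriv_add_apply hh1 hh2]
  have h2 := hh x hx k hk
  have h3 := hδ' k hk x hx
  have h4 := hk₀ k (by simp; omega)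
  calc ‖_ + _‖ ≤ _ := norm_add_le _ _
    _ < δ k₀ + (ε - δ k) := add_lt_add_of_lt_of_le h2 h3
    _ ≤ ε := by linarith

lemma self_mem_nhd (f : SmoothFun 𝕜 Ω) (K : Set (E d)) (n : ℕ) {ε : ℝ} (hε : 0 < ε) :
    f ∈ nhd f K n ε := by
  intro x _ k _
  have : (fun y => f.1 y - f.1 y) = fun _ => (0 : 𝕜) := by
    funext y
    simp
  rw [this]
  rcases Nat.eq_zero_or_pos k with rfl | hk
  · simpa using hε
  · rw [iteratedFDeriv_const_of_ne hk.ne']
    simpa using hε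

lemma nhd_mem_nhds (hΩ : IsOpen Ω) (f : SmoothFun 𝕜 Ω) {K : Set (E d)} (hK : K ⊆ Ω)
    (hKc : IsCompact K) (n : ℕ) {ε : ℝ} (hε : 0 < ε) : nhd f K n ε ∈ 𝓝 f :=
  (isOpen_nhd hΩ f hK hKc n ε).mem_nhds (self_mem_nhd f K n hε)

lemma continuous_eval (hΩ : IsOpen Ω) {x : E d} (hx : x ∈ Ω) :
    Continuous (fun f : SmoothFun 𝕜 Ω => f.1 x) := by
  rw [continuous_iff_continuousAt]
  intro f
  rw [ContinuousAt, Metric.tendsto_nhds]
  intro ε hε
  filter_upwards [nhd_mem_nhds hΩ f (singleton_subset_iff.2 hx) isCompact_singleton 0 hε] with g hg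
  have := hg x rfl 0 le_rfl
  rwa [norm_iteratedFDeriv_zero, ← dist_eq_norm] at this

lemma continuous_fderiv (hΩ : IsOpen Ω) {x : E d} (hx : x ∈ Ω) (v : E d) :
    Continuous (fun f : SmoothFun 𝕜 Ω => fderiv ℝ f.1 x v) := by
  rw [continuous_iff_continuousAt]
  intro f
  rw [ContinuousAt, Metric.tendsto_nhds]
  intro ε hε
  have hε' : 0 < ε / (‖v‖ + 1) := by positivity
  filter_upwards [nhd_mem_nhds hΩ f (singleton_subset_iff.2 hx) isCompact_singleton 1 hε'] with g hg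
  have := hg x rfl 1 le_rfl
  rw [norm_iteratedFDeriv_one] at this
  have h1 : fderiv ℝ (fun y => g.1 y - f.1 y) x = fderiv ℝ g.1 x - fderiv ℝ f.1 x :=
    fderiv_fun_sub ((contDiffAt_of hΩ g hx).differentiableAt (by simp))
      ((contDiffAt_of hΩ f hx).differentiableAt (by simp))
  rw [h1] at this
  rw [dist_eq_norm, ← sub_apply]
  calc ‖(fderiv ℝ g.1 x - fderiv ℝ f.1 x) v‖ ≤ ‖fderiv ℝ g.1 x - fderiv ℝ f.1 x‖ * ‖v‖ :=
        ContinuousLinearMap.le_opNorm _ _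
    _ ≤ ε / (‖v‖ + 1) * ‖v‖ := mul_le_mul_of_nonneg_right this.le (norm_nonneg _)
    _ < ε / (‖v‖ + 1) * (‖v‖ + 1) := by
        apply mul_lt_mul_of_pos_left _ hε'
        linarith
    _ = ε := by field_simp

/-- the smooth function on `Ω` given by a function which is smooth on `Ω` -/
noncomputable def mk' (F : E d → 𝕜) (hF : ContDiffOn ℝ ∞ F Ω) : SmoothFun 𝕜 Ω :=
  ⟨Ω.indicator F, hF.congr fun _ hx => indicator_of_mem hx _, fun _ hx => indicator_of_notMem hx _⟩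

lemma mk'_apply {F : E d → 𝕜} (hF : ContDiffOn ℝ ∞ F Ω) {x : E d} (hx : x ∈ Ω) :
    (mk' F hF).1 x = F x := indicator_of_mem hx _

lemma fderiv_mk' (hΩ : IsOpen Ω) {F : E d → 𝕜} (hF : ContDiffOn ℝ ∞ F Ω) {x : E d} (hx : x ∈ Ω) :
    fderiv ℝ (mk' F hF).1 x = fderiv ℝ F x := by
  apply Filter.EventuallyEq.fderiv_eq
  filter_upwards [hΩ.mem_nhds hx] with y hy
  exact mk'_apply hF hy

/-! ### iterates -/

section
variable {w : E d → 𝕜} {ψ : E d → E d} (hw : ContDiffOn ℝ ∞ w Ω)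
    (hψ : ContDiffOn ℝ ∞ ψ Ω) (hm : MapsTo ψ Ω Ω)

lemma wcomp_apply (f : SmoothFun 𝕜 Ω) {x : E d} (hx : x ∈ Ω) :
    (wcomp w ψ hw hψ hm f).1 x = w x * f.1 (ψ x) :=
  indicator_of_mem hx (fun x => w x * f.1 (ψ x))

/-- the weight of the `n`-th iterate -/
noncomputable def wt (w : E d → 𝕜) (ψ : E d → E d) (n : ℕ) (x : E d) : 𝕜 :=
  ∏ j ∈ Finset.range n, w (ψ^[j] x)

lemma wt_add (w : E d → 𝕜) (ψ : E d → E d) (m n : ℕ) (x : E d) :
    wt w ψ (m + n) x = wt w ψ m x * wt w ψ n (ψ^[m] x) := by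
  unfold wt
  rw [Finset.prod_range_add]
  congr 1
  apply Finset.prod_congr rfl
  intro j _
  rw [← Function.iterate_add_apply, add_comm]

include hm in
lemma iter_mem {x : E d} (hx : x ∈ Ω) (n : ℕ) : ψ^[n] x ∈ Ω := hm.iterate n hx

lemma iterate_apply (n : ℕ) (f : SmoothFun 𝕜 Ω) {x : E d} (hx : x ∈ Ω) :
    ((wcomp w ψ hw hψ hm)^[n] f).1 x = wt w ψ n x * f.1 (ψ^[n] x) := by
  induction n generalizing x with
  | zero => simp [wt]
  | succ n ih =>
    have h1 : wt w ψ (n + 1) x = w x * wt w ψ n (ψ x) := by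
      rw [add_comm n 1, wt_add]
      simp [wt]
    rw [Function.iterate_succ_apply', wcomp_apply hw hψ hm _ hx, ih (hm hx), h1,
      Function.iterate_succ_apply, mul_assoc]

end

end Pool.Agent.R199.WComp
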