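import Pool.Agent.R199.WComp1

/-!
Weighted composition operators on `C^∞(Ω)`: consequences of transitivity.
-/

set_option autoImplicit false

open Set Filter Topology
open scoped ContDiff

namespace Pool.Agent.R199.WComp

variable {d : ℕ} {𝕜 : Type} [RCLike 𝕜] {Ω : Set (E d)}
variable {w : E d → 𝕜} {ψ : E d → E d} {hw : ContDiffOn ℝ ∞ w Ω}
    {hψ : ContDiffOn ℝ ∞ ψ Ω} {hm : MapsTo ψ Ω Ω}

/-- a transitive map does not have a nontrivial continuous `L` vanishing on its range -/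
lemma no_functional {X : Type} [TopologicalSpace X] {T : X → X} (hT : IsTransitive T)
    (L : X → 𝕜) (hL : Continuous L) (h0 : ∃ f, L f = 0) (h1 : ∃ f, 2 < ‖L f‖) :
    ¬ ∀ f, L (T f) = 0 := by
  intro hcon
  obtain ⟨n, g, ⟨f, hf, rfl⟩, hg⟩ := hT {f | ‖L f‖ < 1} {f | 2 < ‖L f‖}
    (isOpen_lt hL.norm continuous_const) (by
      obtain ⟨f, hf⟩ := h0
      exact ⟨f, by simp [hf]⟩)
    (isOpen_lt continuous_const hL.norm) h1
  simp only [mem_ofPred_eq] at hf hg
  rcases n with _ | n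
  · simp only [Function.iterate_zero, id_eq] at hg
    linarith
  · rw [Function.iterate_succ_apply', hcon, norm_zero] at hg
    linarith

lemma contDiffOn_const' (c : 𝕜) : ContDiffOn ℝ ∞ (fun _ : E d => c) Ω := contDiffOn_const

lemma w_ne_zero (hΩ : IsOpen Ω) (hT : IsTransitive (wcomp w ψ hw hψ hm)) {x : E d} (hx : x ∈ Ω) :
    w x ≠ 0 := by
  intro h0
  refine no_functional hT (fun f => f.1 x) (continuous_eval hΩ hx)
    ⟨mk' (fun _ => 0) (contDiffOn_const' _), mk'_apply _ hx⟩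
    ⟨mk' (fun _ => 3) (contDiffOn_const' _), ?_⟩ ?_
  · rw [mk'_apply _ hx]
    norm_num
  · intro f
    rw [wcomp_apply hw hψ hm f hx, h0, zero_mul]

lemma ofReal_smooth {F : E d → ℝ} (hF : ContDiff ℝ ∞ F) :
    ContDiffOn ℝ ∞ (fun x => ((F x : ℝ) : 𝕜)) Ω := by
  have : (fun x => ((F x : ℝ) : 𝕜)) = fun x => (RCLike.ofRealCLM (K := 𝕜)) (F x) := by
    funext x
    simp
  rw [this]
  exact ((RCLike.ofRealCLM (K := 𝕜)).contDiff.comp hF).contDiffOn

lemma injOn (hΩ : IsOpen Ω) (hT : IsTransitive (wcomp w ψ hw hψ hm)) : InjOn ψ Ω := by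
  intro x hx y hy hxy
  by_contra hne
  have hwx := w_ne_zero hΩ hT hx
  have hwy := w_ne_zero hΩ hT hy
  have hpos : 0 < ‖x - y‖ := norm_pos_iff.2 (sub_ne_zero.2 hne)
  have hwpos : 0 < ‖w y‖ := norm_pos_iff.2 hwy
  refine no_functional hT (fun f => w y * f.1 x - w x * f.1 y)
    ((continuous_const.mul (continuous_eval hΩ hx)).sub
      (continuous_const.mul (continuous_eval hΩ hy)))
    ⟨mk' (fun _ => 0) (contDiffOn_const' _), ?_⟩
    ⟨mk' (fun z => ((3 / (‖w y‖ * ‖x - y‖ ^ 2) * ‖z - y‖ ^ 2 : ℝ) : 𝕜))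
      (ofReal_smooth ?_), ?_⟩ ?_
  · simp only [mk'_apply _ hx, mk'_apply _ hy]
    simp
  · exact contDiff_const.mul ((contDiff_id.sub contDiff_const).norm_sq ℝ)
  · simp only [mk'_apply _ hx, mk'_apply _ hy]
    rw [sub_self y, norm_zero]
    simp only [ne_eq, OfNat.ofNat_ne_zero, not_false_eq_true, zero_pow, mul_zero, map_zero,
      sub_zero]
    rw [norm_mul, RCLike.norm_ofReal, abs_of_pos (by positivity)]
    have : ‖w y‖ * (3 / (‖w y‖ * ‖x - y‖ ^ 2) * ‖x - y‖ ^ 2) = 3 := by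
      field_simp
    rw [this]
    norm_num
  · intro f
    rw [wcomp_apply hw hψ hm f hx, wcomp_apply hw hψ hm f hy, hxy]
    ring

lemma fderiv_inj (hΩ : IsOpen Ω) (hT : IsTransitive (wcomp w ψ hw hψ hm)) {x : E d} (hx : x ∈ Ω)
    {v : E d} (hv : fderiv ℝ ψ x v = 0) : v = 0 := by
  by_contra hne
  have hwx := w_ne_zero hΩ hT hx
  have hpos : 0 < ‖v‖ := norm_pos_iff.2 hne
  have hwpos : 0 < ‖w x‖ := norm_pos_iff.2 hwx
  refine no_functional hT (fun f => w x * fderiv ℝ f.1 x v - fderiv ℝ w x v * f.1 x)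
    ((continuous_const.mul (continuous_fderiv hΩ hx v)).sub
      (continuous_const.mul (continuous_eval hΩ hx)))
    ⟨mk' (fun _ => 0) (contDiffOn_const' _), ?_⟩
    ⟨mk' (fun z => ((3 / (‖w x‖ * ‖v‖ ^ 2) * inner ℝ v (z - x) : ℝ) : 𝕜))
      (ofReal_smooth ?_), ?_⟩ ?_
  · simp only [mk'_apply _ hx, fderiv_mk' hΩ _ hx]
    simp
  · exact contDiff_const.mul (contDiff_const.inner ℝ (contDiff_id.sub contDiff_const))
  · simp only [mk'_apply _ hx, fderiv_mk' hΩ _ hx]
    have h1 : HasFDerivAt (fun z : E d => ((3 / (‖w x‖ * ‖v‖ ^ 2) * inner ℝ v (z - x) : ℝ) : 𝕜))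
        ((RCLike.ofRealCLM (K := 𝕜)).comp ((3 / (‖w x‖ * ‖v‖ ^ 2)) • (innerSL ℝ v))) x := by
      have h2 : HasFDerivAt (fun z : E d => 3 / (‖w x‖ * ‖v‖ ^ 2) * inner ℝ v (z - x))
          ((3 / (‖w x‖ * ‖v‖ ^ 2)) • (innerSL ℝ v)) x := by
        have h3 : HasFDerivAt (fun z : E d => inner ℝ v (z - x)) (innerSL ℝ v) x := by
          have h4 : HasFDerivAt (fun z : E d => (innerSL ℝ v) (z - x)) (innerSL ℝ v) x := by
            have := (innerSL ℝ v).hasFDerivAt.comp x ((hasFDerivAt_id (𝕜 := ℝ) x).sub_const x)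
            exact this
          exact h4
        exact h3.const_mul _
      have := (RCLike.ofRealCLM (K := 𝕜)).hasFDerivAt.comp x h2
      exact this
    rw [h1.fderiv]
    simp only [ContinuousLinearMap.comp_apply, sub_self, inner_zero_right, mul_zero, map_zero,
      sub_zero]
    rw [smul_apply, innerSL_apply_apply, real_inner_self_eq_norm_sq, smul_eq_mul,
      RCLike.ofRealCLM_apply, norm_mul, RCLike.norm_ofReal, abs_of_pos (by positivity)]
    have : ‖w x‖ * (3 / (‖w x‖ * ‖v‖ ^ 2) * ‖v‖ ^ 2) = 3 := by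
      field_simp
    rw [this]
    norm_num
  · intro f
    rw [wcomp_apply hw hψ hm f hx]
    have hψd : HasFDerivAt ψ (fderiv ℝ ψ x) x :=
      (((hψ x hx).contDiffAt (hΩ.mem_nhds hx)).differentiableAt (by simp)).hasFDerivAt
    have hwd : HasFDerivAt w (fderiv ℝ w x) x :=
      (((hw x hx).contDiffAt (hΩ.mem_nhds hx)).differentiableAt (by simp)).hasFDerivAt
    have hfd : HasFDerivAt f.1 (fderiv ℝ f.1 (ψ x)) (ψ x) :=
      ((contDiffAt_of hΩ f (hm hx)).differentiableAt (by simp)).hasFDerivAt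
    have h1 : HasFDerivAt (fun z => w z * f.1 (ψ z))
        (w x • ((fderiv ℝ f.1 (ψ x)).comp (fderiv ℝ ψ x)) + f.1 (ψ x) • fderiv ℝ w x) x :=
      hwd.mul (hfd.comp x hψd)
    have h2 : HasFDerivAt (wcomp w ψ hw hψ hm f).1
        (w x • ((fderiv ℝ f.1 (ψ x)).comp (fderiv ℝ ψ x)) + f.1 (ψ x) • fderiv ℝ w x) x := by
      apply h1.congr_of_eventuallyEq
      filter_upwards [hΩ.mem_nhds hx] with y hy
      exact wcomp_apply hw hψ hm f hy
    rw [h2.fderiv]
    simp only [ContinuousLinearMap.add_apply, ContinuousLinearMap.smul_apply,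
      ContinuousLinearMap.comp_apply, hv, map_zero, smul_zero, zero_add, smul_eq_mul]
    ring

/-- `ψ` has no periodic points -/
lemma no_periodic (hΩ : IsOpen Ω) (hT : IsTransitive (wcomp w ψ hw hψ hm)) {z : E d} (hz : z ∈ Ω)
    {m : ℕ} (hmpos : 0 < m) : ψ^[m] z ≠ z := by
  intro hper
  let P : SmoothFun 𝕜 Ω → ℝ := fun f => ∏ i ∈ Finset.range m, ‖f.1 (ψ^[i] z)‖
  have hP : Continuous P := by
    apply continuous_finsetProd
    intro i _
    exact (continuous_eval hΩ (iter_mem hm hz i)).norm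
  set lam : ℝ := ∏ i ∈ Finset.range m, ‖w (ψ^[i] z)‖ with hlam
  have hlam0 : 0 ≤ lam := Finset.prod_nonneg fun i _ => norm_nonneg _
  have hPT : ∀ f, P (wcomp w ψ hw hψ hm f) = lam * P f := by
    intro f
    simp only [P, hlam]
    have h1 : ∀ i, ‖(wcomp w ψ hw hψ hm f).1 (ψ^[i] z)‖ =
        ‖w (ψ^[i] z)‖ * ‖f.1 (ψ^[i + 1] z)‖ := by
      intro i
      rw [wcomp_apply hw hψ hm f (iter_mem hm hz i), norm_mul, Function.iterate_succ_apply']
    simp only [h1]
    rw [Finset.prod_mul_distrib]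
    congr 1
    have h2 := Finset.prod_range_succ' (fun i => ‖f.1 (ψ^[i] z)‖) m
    have h3 := Finset.prod_range_succ (fun i => ‖f.1 (ψ^[i] z)‖) m
    rw [h3, hper] at h2
    obtain ⟨k, rfl⟩ : ∃ k, m = k + 1 := ⟨m - 1, by omega⟩
    have h4 : ∀ g : ℕ → ℝ, g (k + 1) = g 0 →
        ∏ i ∈ Finset.range (k + 1), g (i + 1) = ∏ i ∈ Finset.range (k + 1), g i := by
      intro g hg
      rw [Finset.prod_range_succ, hg, ← Finset.prod_range_succ']
    exact h4 (fun i => ‖f.1 (ψ^[i] z)‖) (by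
      show ‖f.1 (ψ^[k + 1] z)‖ = _
      rw [hper]
      simp)
  have hPn : ∀ n f, P ((wcomp w ψ hw hψ hm)^[n] f) = lam ^ n * P f := by
    intro n f
    induction n with
    | zero => simp
    | succ n ih => rw [Function.iterate_succ_apply', hPT, ih, pow_succ]; ring
  have hP0 : ∃ f, P f < 1 := by
    refine ⟨mk' (fun _ => 0) (contDiffOn_const' _), ?_⟩
    have h1 : P (mk' (fun _ => 0) (contDiffOn_const' (Ω := Ω) (0 : 𝕜))) = 0 := by
      apply Finset.prod_eq_zero (Finset.mem_range.2 hmpos)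
      rw [mk'_apply _ (iter_mem hm hz 0), norm_zero]
    rw [h1]
    exact one_pos
  have hP1 : ∃ f, 1 < P f := by
    refine ⟨mk' (fun _ => 2) (contDiffOn_const' _), ?_⟩
    have h1 : P (mk' (fun _ => 2) (contDiffOn_const' (Ω := Ω) (2 : 𝕜))) = 2 ^ m := by
      simp only [P]
      rw [Finset.prod_congr rfl (g := fun _ => (2 : ℝ)), Finset.prod_const, Finset.card_range]
      intro i _
      rw [mk'_apply _ (iter_mem hm hz i)]
      norm_num
    rw [h1]
    exact one_lt_pow₀ (by norm_num) hmpos.ne'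
  have hPnn : ∀ f, 0 ≤ P f := fun f => Finset.prod_nonneg fun i _ => norm_nonneg _
  rcases le_or_gt lam 1 with h | h
  · obtain ⟨n, g, ⟨f, hf, rfl⟩, hg⟩ := hT {f | P f < 1} {f | 1 < P f}
      (isOpen_lt hP continuous_const) hP0 (isOpen_lt continuous_const hP) hP1
    simp only [mem_ofPred_eq] at hf hg
    rw [hPn] at hg
    have h1 : lam ^ n ≤ 1 := pow_le_one₀ hlam0 h
    have h2 := hPnn f
    nlinarith
  · obtain ⟨n, g, ⟨f, hf, rfl⟩, hg⟩ := hT {f | 1 < P f} {f | P f < 1}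
      (isOpen_lt continuous_const hP) hP1 (isOpen_lt hP continuous_const) hP0
    simp only [mem_ofPred_eq] at hf hg
    rw [hPn] at hg
    have h1 : 1 ≤ lam ^ n := one_le_pow₀ h.le
    nlinarith

end Pool.Agent.R199.WComp
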