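import Pool.Agent.R199.WComp2

/-!
Weighted composition operators on `C^∞(Ω)`: chaos implies that the symbol is strongly run-away.
-/

set_option autoImplicit false

open Set Filter Topology
open scoped ContDiff

namespace Pool.Agent.R199.WComp

variable {d : ℕ} {𝕜 : Type} [RCLike 𝕜] {Ω : Set (E d)}
variable {w : E d → 𝕜} {ψ : E d → E d} {hw : ContDiffOn ℝ ∞ w Ω}
    {hψ : ContDiffOn ℝ ∞ ψ Ω} {hm : MapsTo ψ Ω Ω}

lemma norm_le_sum (x : E d) : ‖x‖ ≤ ∑ i, |x i| := by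
  have h := (EuclideanSpace.basisFun (Fin d) ℝ).sum_repr x
  calc ‖x‖ = ‖∑ i, (EuclideanSpace.basisFun (Fin d) ℝ).repr x i •
        (EuclideanSpace.basisFun (Fin d) ℝ) i‖ := by rw [h]
    _ ≤ ∑ i, ‖(EuclideanSpace.basisFun (Fin d) ℝ).repr x i •
        (EuclideanSpace.basisFun (Fin d) ℝ) i‖ := norm_sum_le _ _
    _ = ∑ i, |x i| := by
        apply Finset.sum_congr rfl
        intro i _
        rw [norm_smul, (EuclideanSpace.basisFun (Fin d) ℝ).norm_eq_one, mul_one,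
          EuclideanSpace.basisFun_repr, Real.norm_eq_abs]

lemma coord_smooth (l : Fin d) : ContDiffOn ℝ ∞ (fun x : E d => ((x l : ℝ) : 𝕜)) Ω := by
  apply ofReal_smooth
  fun_prop

/-- the algebraic estimate -/
lemma delta_bound {M ε ε' t : ℝ} (hM : 0 ≤ M) (hε1 : ε ≤ 1) (hεε' : ε ≤ ε') (ht : 0 ≤ t)
    {a b p q e e' : 𝕜} (hb : ‖b‖ ≤ M) (hab : ‖a - b‖ ≤ t)
    (hq1 : ‖q - 1‖ ≤ ε) (hpq : ‖q - p‖ ≤ ε' * t) (hee : ‖e - e'‖ ≤ ε' * t) (he' : ‖e'‖ ≤ ε) :
    ‖((a + e) * q - (b + e') * p) - (a - b)‖ ≤ ε' * (M + 4) * t := by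
  have h0 : 0 ≤ ε := (norm_nonneg _).trans he'
  have h0' : 0 ≤ ε' := h0.trans hεε'
  have hq : ‖q‖ ≤ 2 := by
    calc ‖q‖ = ‖(q - 1) + 1‖ := by rw [sub_add_cancel]
      _ ≤ ‖q - 1‖ + ‖(1 : 𝕜)‖ := norm_add_le _ _
      _ ≤ 2 := by rw [norm_one]; linarith
  have h1 : ((a + e) * q - (b + e') * p) - (a - b) =
      (a - b) * (q - 1) + b * (q - p) + (e - e') * q + e' * (q - p) := by ring
  rw [h1]
  have h2 : ‖(a - b) * (q - 1)‖ ≤ t * ε := by
    rw [norm_mul]
    exact mul_le_mul hab hq1 (norm_nonneg _) ht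
  have h3 : ‖b * (q - p)‖ ≤ M * (ε' * t) := by
    rw [norm_mul]
    exact mul_le_mul hb hpq (norm_nonneg _) hM
  have h4 : ‖(e - e') * q‖ ≤ (ε' * t) * 2 := by
    rw [norm_mul]
    exact mul_le_mul hee hq (norm_nonneg _) (by positivity)
  have h5 : ‖e' * (q - p)‖ ≤ ε * (ε' * t) := by
    rw [norm_mul]
    exact mul_le_mul he' hpq (norm_nonneg _) h0
  have h6 : t * ε ≤ ε' * t := by nlinarith
  have h7 : ε * (ε' * t) ≤ ε' * t := by
    have : 0 ≤ ε' * t := by positivity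
    nlinarith
  have h8 := norm_add_le ((a - b) * (q - 1) + b * (q - p) + (e - e') * q) (e' * (q - p))
  have h9 := norm_add_le ((a - b) * (q - 1) + b * (q - p)) ((e - e') * q)
  have h10 := norm_add_le ((a - b) * (q - 1)) (b * (q - p))
  nlinarith

/-- from a dense set of periodic points we get `d + 1` periodic functions with a common period whose
quotients separate the points of a given compact set -/
lemma exists_frame (hΩ : IsOpen Ω)
    (hD : Dense {f : SmoothFun 𝕜 Ω | ∃ n : ℕ, 1 ≤ n ∧ (wcomp w ψ hw hψ hm)^[n] f = f})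
    {K₀ : Set (E d)} (hK₀ : IsCompact K₀) {δ : ℝ} (hδ : 0 < δ)
    (hsub : Metric.cthickening (2 * δ) K₀ ⊆ Ω) :
    ∃ (p : ℕ) (f₀ : SmoothFun 𝕜 Ω) (f : Fin d → SmoothFun 𝕜 Ω), 1 ≤ p ∧
      (wcomp w ψ hw hψ hm)^[p] f₀ = f₀ ∧ (∀ l, (wcomp w ψ hw hψ hm)^[p] (f l) = f l) ∧
      (∀ x ∈ Metric.cthickening δ K₀, f₀.1 x ≠ 0) ∧
      ∀ u ∈ Metric.cthickening δ K₀, ∀ v ∈ Metric.cthickening δ K₀,
        ‖u - v‖ ≤ 8 * ∑ l, ‖(f l).1 u / f₀.1 u - (f l).1 v / f₀.1 v‖ := by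
  set T := wcomp w ψ hw hψ hm with hT
  set K' := Metric.cthickening (2 * δ) K₀ with hK'
  have hK'c : IsCompact K' := hK₀.cthickening
  obtain ⟨M₀, hM₀⟩ := hK'c.isBounded.exists_norm_le
  set M := max M₀ 0 with hMdef
  have hM : ∀ x ∈ K', ‖x‖ ≤ M := fun x hx => (hM₀ x hx).trans (le_max_left _ _)
  have hM0 : 0 ≤ M := le_max_right _ _
  set κ : ℝ := 1 + 2 / δ with hκ
  have hκ1 : 1 ≤ κ := by
    have : 0 < 2 / δ := by positivity
    linarith
  set ε : ℝ := 1 / (2 * ((d : ℝ) + 1) * κ * (M + 4)) with hε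
  have hden : 0 < 2 * ((d : ℝ) + 1) * κ * (M + 4) := by positivity
  have hε0 : 0 < ε := by positivity
  have hε2 : ε ≤ 1 / 2 := by
    rw [hε]
    apply one_div_le_one_div_of_le (by norm_num)
    have h1 : (1 : ℝ) ≤ (d : ℝ) + 1 := by
      have : (0 : ℝ) ≤ d := Nat.cast_nonneg d
      linarith
    have h2 : (1 : ℝ) ≤ ((d : ℝ) + 1) * κ := by nlinarith
    nlinarith
  have hεd : (d : ℝ) * (ε * κ * (M + 4)) ≤ 1 / 2 := by
    have h1 : (d : ℝ) * (ε * κ * (M + 4)) = (d : ℝ) / ((d : ℝ) + 1) / 2 := by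
      rw [hε]
      field_simp
    rw [h1]
    have h2 : (d : ℝ) / ((d : ℝ) + 1) ≤ 1 := by
      rw [div_le_one (by positivity)]
      linarith
    linarith
  -- approximation
  have happrox : ∀ (F : E d → 𝕜) (hF : ContDiffOn ℝ ∞ F Ω), ∃ (g : SmoothFun 𝕜 Ω) (n : ℕ), 1 ≤ n ∧
      T^[n] g = g ∧ (∀ x ∈ K', ‖g.1 x - F x‖ ≤ ε) ∧
      ∀ u ∈ Metric.cthickening δ K₀, ∀ v ∈ Metric.cthickening δ K₀,
        ‖(g.1 u - F u) - (g.1 v - F v)‖ ≤ ε * κ * ‖u - v‖ := by
    intro F hF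
    obtain ⟨g, hg, n, hn, hgn⟩ := hD.inter_open_nonempty (nhd (mk' F hF) K' 1 ε)
      (isOpen_nhd hΩ _ hsub hK'c 1 ε) ⟨_, self_mem_nhd _ K' 1 hε0⟩
    have hgF : ∀ x ∈ K', ‖g.1 x - F x‖ ≤ ε := by
      intro x hx
      have := hg x hx 0 (by norm_num)
      rw [norm_iteratedFDeriv_zero, mk'_apply hF (hsub hx)] at this
      exact this.le
    have hss : Metric.cthickening δ K₀ ⊆ K' := Metric.cthickening_mono (by linarith) _
    refine ⟨g, n, hn, hgn, hgF, fun u hu v hv => ?_⟩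
    rcases lt_or_ge ‖u - v‖ δ with hlt | hge
    · have hseg : segment ℝ v u ⊆ K' := by
        intro z hz
        have h1 : dist z u ≤ δ := by
          have h2 : dist v z + dist z u = dist v u := dist_add_dist_of_mem_segment hz
          have h3 : dist v u < δ := by rw [dist_comm, dist_eq_norm]; exact hlt
          have h4 := dist_nonneg (x := v) (y := z)
          linarith
        have h2 : z ∈ Metric.cthickening δ (Metric.cthickening δ K₀) :=
          Metric.mem_cthickening_of_dist_le z u δ _ hu h1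
        have h3 := Metric.cthickening_cthickening_subset hδ.le hδ.le K₀ h2
        rwa [← two_mul] at h3
      have hdiff : ∀ z ∈ segment ℝ v u,
          DifferentiableAt ℝ (fun y => g.1 y - (mk' F hF).1 y) z := fun z hz =>
        ((contDiffAt_of hΩ g (hsub (hseg hz))).differentiableAt (by simp)).sub
          ((contDiffAt_of hΩ (mk' F hF) (hsub (hseg hz))).differentiableAt (by simp))
      have hbd : ∀ z ∈ segment ℝ v u, ‖fderiv ℝ (fun y => g.1 y - (mk' F hF).1 y) z‖ ≤ ε := by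
        intro z hz
        have := hg z (hseg hz) 1 le_rfl
        rw [norm_iteratedFDeriv_one] at this
        exact this.le
      have hmv := (convex_segment v u).norm_image_sub_le_of_norm_fderiv_le hdiff hbd
        (left_mem_segment ℝ v u) (right_mem_segment ℝ v u)
      simp only [mk'_apply hF (hsub (hss hu)), mk'_apply hF (hsub (hss hv))] at hmv
      refine hmv.trans ?_
      have : 0 ≤ ‖u - v‖ := norm_nonneg _
      nlinarith [mul_nonneg hε0.le this]
    · calc ‖(g.1 u - F u) - (g.1 v - F v)‖ ≤ ‖g.1 u - F u‖ + ‖g.1 v - F v‖ := norm_sub_le _ _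
        _ ≤ ε + ε := add_le_add (hgF u (hss hu)) (hgF v (hss hv))
        _ = ε * (2 / δ) * δ := by field_simp; ring
        _ ≤ ε * (2 / δ) * ‖u - v‖ := mul_le_mul_of_nonneg_left hge (by positivity)
        _ ≤ ε * κ * ‖u - v‖ := by
            apply mul_le_mul_of_nonneg_right _ (norm_nonneg _)
            apply mul_le_mul_of_nonneg_left _ hε0.le
            linarith
  obtain ⟨f₀, p₀, hp₀, hf₀, hf₀1, hf₀2⟩ := happrox (fun _ => 1) (contDiffOn_const' _)
  choose f p hp hf hf1 hf2 using fun l : Fin d => happrox (fun x => ((x l : ℝ) : 𝕜)) (coord_smooth l)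
  have hss : Metric.cthickening δ K₀ ⊆ K' := Metric.cthickening_mono (by linarith) _
  have hne : ∀ x ∈ Metric.cthickening δ K₀, f₀.1 x ≠ 0 := by
    intro x hx h0
    have := hf₀1 x (hss hx)
    rw [h0, zero_sub, norm_neg, norm_one] at this
    linarith
  refine ⟨p₀ * ∏ l, p l, f₀, f, ?_, ?_, ?_, hne, ?_⟩
  · have : 1 ≤ ∏ l, p l := Finset.one_le_prod' fun l _ => hp l
    exact Nat.one_le_iff_ne_zero.2 (Nat.mul_ne_zero (by omega) (by omega))
  · exact (show Function.IsPeriodicPt T p₀ f₀ from hf₀).trans_dvd (Dvd.intro _ rfl)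
  · intro l
    exact (show Function.IsPeriodicPt T (p l) (f l) from hf l).trans_dvd
      ((Finset.dvd_prod_of_mem p (Finset.mem_univ l)).trans (Dvd.intro_left _ rfl))
  · intro u hu v hv
    have huK := hss hu
    have hvK := hss hv
    have hcoord : ∀ (x : E d) (l : Fin d), |x l| ≤ ‖x‖ := by
      intro x l
      have := PiLp.norm_apply_le x l
      rwa [Real.norm_eq_abs] at this
    have key : ∀ l, |(u - v) l| ≤ ‖(f l).1 u * f₀.1 v - (f l).1 v * f₀.1 u‖ +
        ε * κ * (M + 4) * ‖u - v‖ := by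
      intro l
      have h1 := delta_bound (𝕜 := 𝕜) (M := M) (ε := ε) (ε' := ε * κ) (t := ‖u - v‖) hM0
        (by linarith) (by nlinarith) (norm_nonneg _)
        (a := ((u l : ℝ) : 𝕜)) (b := ((v l : ℝ) : 𝕜)) (p := f₀.1 u) (q := f₀.1 v)
        (e := (f l).1 u - ((u l : ℝ) : 𝕜)) (e' := (f l).1 v - ((v l : ℝ) : 𝕜))
        (by rw [RCLike.norm_ofReal]; exact (hcoord v l).trans (hM v hvK))
        (by
          rw [← RCLike.ofReal_sub, RCLike.norm_ofReal]
          exact hcoord (u - v) l)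
        (hf₀1 v hvK)
        (by
          have := hf₀2 v hv u hu
          rw [norm_sub_rev v u] at this
          simpa using this)
        (hf2 l u hu v hv) (hf1 l v hvK)
      rw [add_sub_cancel, add_sub_cancel] at h1
      have h2 : |(u - v) l| = ‖((u l : ℝ) : 𝕜) - ((v l : ℝ) : 𝕜)‖ := by
        rw [← RCLike.ofReal_sub, RCLike.norm_ofReal]
        rfl
      rw [h2]
      have h3 := norm_sub_le ((f l).1 u * f₀.1 v - (f l).1 v * f₀.1 u)
        (((f l).1 u * f₀.1 v - (f l).1 v * f₀.1 u) - (((u l : ℝ) : 𝕜) - ((v l : ℝ) : 𝕜)))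
      rw [sub_sub_cancel] at h3
      exact h3.trans (by linarith)
    have hsum : ‖u - v‖ ≤ 2 * ∑ l, ‖(f l).1 u * f₀.1 v - (f l).1 v * f₀.1 u‖ := by
      have h1 := (norm_le_sum (u - v)).trans (Finset.sum_le_sum fun l _ => key l)
      rw [Finset.sum_add_distrib, Finset.sum_const, Finset.card_univ, Fintype.card_fin,
        nsmul_eq_mul, ← mul_assoc] at h1
      have h2 : (d : ℝ) * (ε * κ * (M + 4)) * ‖u - v‖ ≤ 1 / 2 * ‖u - v‖ :=
        mul_le_mul_of_nonneg_right hεd (norm_nonneg _)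
      linarith
    have hf₀le : ∀ x ∈ K', ‖f₀.1 x‖ ≤ 3 / 2 := by
      intro x hx
      calc ‖f₀.1 x‖ = ‖(f₀.1 x - 1) + 1‖ := by rw [sub_add_cancel]
        _ ≤ ‖f₀.1 x - 1‖ + ‖(1 : 𝕜)‖ := norm_add_le _ _
        _ ≤ 1 / 2 + 1 := by
            rw [norm_one]
            have := hf₀1 x hx
            linarith
        _ = 3 / 2 := by norm_num
    have hquot : ∀ l, ‖(f l).1 u * f₀.1 v - (f l).1 v * f₀.1 u‖ ≤
        4 * ‖(f l).1 u / f₀.1 u - (f l).1 v / f₀.1 v‖ := by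
      intro l
      have h1 : (f l).1 u * f₀.1 v - (f l).1 v * f₀.1 u =
          ((f l).1 u / f₀.1 u - (f l).1 v / f₀.1 v) * (f₀.1 u * f₀.1 v) := by
        have := hne u hu
        have := hne v hv
        field_simp
      rw [h1, norm_mul, norm_mul, mul_comm]
      apply mul_le_mul_of_nonneg_right _ (norm_nonneg _)
      calc ‖f₀.1 u‖ * ‖f₀.1 v‖ ≤ 3 / 2 * (3 / 2) :=
            mul_le_mul (hf₀le u huK) (hf₀le v hvK) (norm_nonneg _) (by norm_num)
        _ ≤ 4 := by norm_num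
    calc ‖u - v‖ ≤ 2 * ∑ l, ‖(f l).1 u * f₀.1 v - (f l).1 v * f₀.1 u‖ := hsum
      _ ≤ 2 * ∑ l, 4 * ‖(f l).1 u / f₀.1 u - (f l).1 v / f₀.1 v‖ := by
          apply mul_le_mul_of_nonneg_left _ (by norm_num)
          exact Finset.sum_le_sum fun l _ => hquot l
      _ = 8 * ∑ l, ‖(f l).1 u / f₀.1 u - (f l).1 v / f₀.1 v‖ := by
          rw [← Finset.mul_sum]
          ring

end Pool.Agent.R199.WComp
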