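import Pool.Agent.R199.WComp3

/-!
Weighted composition operators on `C^∞(Ω)`: chaos implies that the symbol is strongly run-away, and
a strongly run-away symbol gives a mixing operator.
-/

set_option autoImplicit false

open Set Filter Topology
open scoped ContDiff

namespace Pool.Agent.R199.WComp

variable {d : ℕ} {𝕜 : Type} [RCLike 𝕜] {Ω : Set (E d)}

/-- `ψ` maps `Ω` diffeomorphically onto its image -/
structure Good (Ω : Set (E d)) (ψ : E d → E d) : Prop where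
  isOpen : IsOpen Ω
  smooth : ContDiffOn ℝ ∞ ψ Ω
  mapsTo : MapsTo ψ Ω Ω
  injOn : InjOn ψ Ω
  der : ∀ x ∈ Ω, ∀ v, fderiv ℝ ψ x v = 0 → v = 0

namespace Good
variable {ψ : E d → E d}

lemma iter_mem (h : Good Ω ψ) {x : E d} (hx : x ∈ Ω) (n : ℕ) : ψ^[n] x ∈ Ω := h.mapsTo.iterate n hx

lemma contDiffAt (h : Good Ω ψ) {x : E d} (hx : x ∈ Ω) : ContDiffAt ℝ ∞ ψ x :=
  (h.smooth x hx).contDiffAt (h.isOpen.mem_nhds hx)

lemma exists_equiv (h : Good Ω ψ) {x : E d} (hx : x ∈ Ω) :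
    ∃ e : E d ≃L[ℝ] E d, HasFDerivAt ψ (e : E d →L[ℝ] E d) x := by
  have h1 : Function.Injective (fderiv ℝ ψ x).toLinearMap := by
    rw [← LinearMap.ker_eq_bot, LinearMap.ker_eq_bot']
    exact fun v hv => h.der x hx v hv
  refine ⟨(LinearEquiv.ofInjectiveEndo _ h1).toContinuousLinearEquiv, ?_⟩
  have h2 : (((LinearEquiv.ofInjectiveEndo _ h1).toContinuousLinearEquiv : E d ≃L[ℝ] E d) :
      E d →L[ℝ] E d) = fderiv ℝ ψ x := by
    ext v
    rfl
  rw [h2]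
  exact ((h.contDiffAt hx).differentiableAt (by simp)).hasFDerivAt

lemma iter_equiv (h : Good Ω ψ) {x : E d} (hx : x ∈ Ω) (n : ℕ) :
    ∃ e : E d ≃L[ℝ] E d, HasFDerivAt ψ^[n] (e : E d →L[ℝ] E d) x := by
  induction n with
  | zero => exact ⟨ContinuousLinearEquiv.refl ℝ _, hasFDerivAt_id x⟩
  | succ n ih =>
    obtain ⟨e, he⟩ := ih
    obtain ⟨e', he'⟩ := h.exists_equiv (h.iter_mem hx n)
    refine ⟨e.trans e', ?_⟩
    rw [Function.iterate_succ']
    exact he'.comp x he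

lemma iter_contDiffAt (h : Good Ω ψ) {x : E d} (hx : x ∈ Ω) (n : ℕ) :
    ContDiffAt ℝ ∞ ψ^[n] x := by
  induction n with
  | zero => exact contDiffAt_id
  | succ n ih =>
    rw [Function.iterate_succ']
    exact (h.contDiffAt (h.iter_mem hx n)).comp x ih

lemma iter_map_nhds (h : Good Ω ψ) {x : E d} (hx : x ∈ Ω) (n : ℕ) :
    map ψ^[n] (𝓝 x) = 𝓝 (ψ^[n] x) := by
  obtain ⟨e, he⟩ := h.iter_equiv hx n
  exact ((h.iter_contDiffAt hx n).hasStrictFDerivAt' he (by simp)).map_nhds_eq_of_equiv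

lemma iter_injOn (h : Good Ω ψ) (n : ℕ) : InjOn ψ^[n] Ω := h.injOn.iterate h.mapsTo n

lemma iter_isOpen (h : Good Ω ψ) (n : ℕ) {U : Set (E d)} (hU : IsOpen U) (hUΩ : U ⊆ Ω) :
    IsOpen (ψ^[n] '' U) := by
  rw [isOpen_iff_mem_nhds]
  rintro _ ⟨x, hx, rfl⟩
  rw [← h.iter_map_nhds (hUΩ hx) n]
  exact image_mem_map (hU.mem_nhds hx)

lemma iter_continuousOn (h : Good Ω ψ) (n : ℕ) : ContinuousOn ψ^[n] Ω := fun _ hx =>
  (h.iter_contDiffAt hx n).continuousAt.continuousWithinAt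

lemma iter_isCompact (h : Good Ω ψ) (n : ℕ) {K : Set (E d)} (hK : IsCompact K) (hKΩ : K ⊆ Ω) :
    IsCompact (ψ^[n] '' K) := hK.image_of_continuousOn ((h.iter_continuousOn n).mono hKΩ)

end Good

/-- `ψ` is strongly run-away on `Ω` -/
def StronglyRunAway (Ω : Set (E d)) (ψ : E d → E d) : Prop :=
  ∀ K ⊆ Ω, IsCompact K → ∀ᶠ n in atTop, ∀ x ∈ K, ψ^[n] x ∉ K

variable {w : E d → 𝕜} {ψ : E d → E d} {hw : ContDiffOn ℝ ∞ w Ω}
    {hψ : ContDiffOn ℝ ∞ ψ Ω} {hm : MapsTo ψ Ω Ω}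

lemma good_of_transitive (hΩ : IsOpen Ω) (hT : IsTransitive (wcomp w ψ hw hψ hm)) : Good Ω ψ :=
  ⟨hΩ, hψ, hm, injOn hΩ hT, fun _ hx _ hv => fderiv_inj hΩ hT hx hv⟩

lemma wt_ne_zero (hw0 : ∀ x ∈ Ω, w x ≠ 0) (hm : MapsTo ψ Ω Ω) {x : E d} (hx : x ∈ Ω) (n : ℕ) :
    wt w ψ n x ≠ 0 := Finset.prod_ne_zero_iff.2 fun j _ => hw0 _ (iter_mem hm hx j)

lemma wt_contDiffAt (h : Good Ω ψ) (hw : ContDiffOn ℝ ∞ w Ω) {x : E d} (hx : x ∈ Ω) (n : ℕ) :
    ContDiffAt ℝ ∞ (wt w ψ n) x := by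
  have h1 : wt w ψ n = fun x => ∏ j ∈ Finset.range n, w (ψ^[j] x) := rfl
  rw [h1]
  apply contDiffAt_prod
  intro j _
  exact ((hw _ (h.iter_mem hx j)).contDiffAt (h.isOpen.mem_nhds (h.iter_mem hx j))).comp x
    (h.iter_contDiffAt hx j)

/-- periodic functions: the cocycle relation -/
lemma fixed_apply {f : SmoothFun 𝕜 Ω} {p : ℕ} (hf : (wcomp w ψ hw hψ hm)^[p] f = f) {N : ℕ}
    (hN : p ∣ N) {x : E d} (hx : x ∈ Ω) : f.1 x = wt w ψ N x * f.1 (ψ^[N] x) := by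
  have h1 : (wcomp w ψ hw hψ hm)^[N] f = f :=
    (show Function.IsPeriodicPt (wcomp w ψ hw hψ hm) p f from hf).trans_dvd hN
  rw [← iterate_apply hw hψ hm N f hx, h1]

lemma stronglyRunAway_of_chaotic (hΩ : IsOpen Ω) (hC : IsChaotic (wcomp w ψ hw hψ hm)) :
    StronglyRunAway Ω ψ := by
  obtain ⟨hT, hD⟩ := hC
  have hG := good_of_transitive hΩ hT
  have hw0 : ∀ x ∈ Ω, w x ≠ 0 := fun x hx => w_ne_zero hΩ hT hx
  intro K₀ hK₀Ω hK₀
  by_contra hcon
  rw [not_eventually] at hcon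
  simp only [not_forall, not_not] at hcon
  obtain ⟨δ₀, hδ₀, hsub₀⟩ := hK₀.exists_cthickening_subset_open hΩ hK₀Ω
  obtain ⟨δ, hδ, hsub⟩ : ∃ δ : ℝ, 0 < δ ∧ Metric.cthickening (2 * δ) K₀ ⊆ Ω :=
    ⟨δ₀ / 2, by positivity, by rwa [mul_div_cancel₀ _ (two_ne_zero)]⟩
  obtain ⟨p, f₀, f, hp, hf₀, hf, hne, hsep⟩ := exists_frame hΩ hD hK₀ hδ hsub
  have hballK : ∀ x ∈ K₀, Metric.closedBall x δ ⊆ Metric.cthickening δ K₀ := fun x hx =>
    Metric.closedBall_subset_cthickening hx δ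
  have hthick : Metric.cthickening δ K₀ ⊆ Ω :=
    (Metric.cthickening_mono (by linarith) _).trans hsub
  -- the ultrafilter
  have := frequently_iff_neBot.1 hcon
  obtain ⟨U, hU⟩ := exists_ultrafilter_le
    (atTop ⊓ 𝓟 {n | ∃ x, ∃ (_ : x ∈ K₀), ψ^[n] x ∈ K₀})
  have hUtop : (U : Filter ℕ) ≤ atTop := hU.trans inf_le_left
  have hUS : ∀ᶠ n in (U : Filter ℕ), ∃ x, ∃ (_ : x ∈ K₀), ψ^[n] x ∈ K₀ :=
    hU (mem_inf_of_right (mem_principal_self _))
  have hchoose : ∀ n : ℕ, ∃ x : E d, (∃ x, ∃ (_ : x ∈ K₀), ψ^[n] x ∈ K₀) →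
      x ∈ K₀ ∧ ψ^[n] x ∈ K₀ := by
    intro n
    by_cases h : ∃ x, ∃ (_ : x ∈ K₀), ψ^[n] x ∈ K₀
    · obtain ⟨x, hx, hx'⟩ := h
      exact ⟨x, fun _ => ⟨hx, hx'⟩⟩
    · exact ⟨0, fun h' => absurd h' h⟩
  choose xs hxs using hchoose
  have hxK : ∀ᶠ n in (U : Filter ℕ), xs n ∈ K₀ := hUS.mono fun n hn => (hxs n hn).1
  have hyK : ∀ᶠ n in (U : Filter ℕ), ψ^[n] (xs n) ∈ K₀ := hUS.mono fun n hn => (hxs n hn).2
  obtain ⟨x, hxK₀, hx⟩ : ∃ x ∈ K₀, Tendsto xs U (𝓝 x) :=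
    hK₀.ultrafilter_le_nhds (U.map xs) (by
      rw [le_principal_iff]
      exact hxK)
  obtain ⟨y, hyK₀, hy⟩ : ∃ y ∈ K₀, Tendsto (fun n => ψ^[n] (xs n)) U (𝓝 y) :=
    hK₀.ultrafilter_le_nhds (U.map fun n => ψ^[n] (xs n)) (by
      rw [le_principal_iff]
      exact hyK)
  obtain ⟨a, ha, hUa⟩ : ∃ a < p, ∀ᶠ n in (U : Filter ℕ), n % p = a := by
    have h1 : ∀ᶠ n in (U : Filter ℕ), ∃ a ∈ Finset.range p, n % p = a :=
      Eventually.of_forall fun n => ⟨n % p, Finset.mem_range.2 (Nat.mod_lt _ (by omega)), rfl⟩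
    have h2 : (⋃ a ∈ (Finset.range p : Set ℕ), {n | n % p = a}) ∈ U := by
      filter_upwards [h1] with n hn
      simpa using hn
    rw [Ultrafilter.finite_biUnion_mem_iff (Finset.finite_toSet _)] at h2
    obtain ⟨a, ha, h3⟩ := h2
    exact ⟨a, by simpa using ha, h3⟩
  set c := p - a with hc
  have hac : a + c = p := by omega
  have hdvd : ∀ n, n % p = a → p ∣ n + c := by
    intro n hn
    have := Nat.div_add_mod n p
    refine ⟨n / p + 1, ?_⟩
    rw [mul_add, mul_one]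
    omega
  have hxΩ := hK₀Ω hxK₀
  have hyΩ := hK₀Ω hyK₀
  have hthK : K₀ ⊆ Metric.cthickening δ K₀ := Metric.self_subset_cthickening _
  -- continuity facts
  have hcont : ∀ (g : SmoothFun 𝕜 Ω) (n : ℕ) {z : E d}, z ∈ Ω →
      ContinuousAt (fun u => g.1 (ψ^[n] u)) z := by
    intro g n z hz
    exact (contDiffAt_of hΩ g (iter_mem hm hz n)).continuousAt.comp
      (hG.iter_contDiffAt hz n).continuousAt
  -- the relation
  have hrel : ∀ᶠ n in (U : Filter ℕ), f₀.1 (xs n) * f₀.1 (ψ^[n] (xs n)) =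
      (wt w ψ a (xs n) * f₀.1 (ψ^[a] (xs n))) *
      (wt w ψ c (ψ^[n] (xs n)) * f₀.1 (ψ^[c] (ψ^[n] (xs n)))) := by
    filter_upwards [hxK, hUa] with n hn hna
    have hnΩ := hK₀Ω hn
    have h1 := fixed_apply hf₀ (hdvd n hna) hnΩ
    rw [wt_add, add_comm n c, Function.iterate_add_apply] at h1
    have h2 : n = a + p * (n / p) := by
      have := Nat.div_add_mod n p
      omega
    have h3 := fixed_apply hf₀ (Dvd.intro (n / p) rfl : p ∣ p * (n / p))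
      (iter_mem hm hnΩ a)
    rw [← Function.iterate_add_apply, add_comm (p * (n / p)) a, ← h2] at h3
    have h4 : wt w ψ n (xs n) = wt w ψ a (xs n) * wt w ψ (p * (n / p)) (ψ^[a] (xs n)) := by
      rw [← wt_add, ← h2]
    rw [h1, h3, h4]
    ring
  have hlim : f₀.1 x * f₀.1 y = (wt w ψ a x * f₀.1 (ψ^[a] x)) * (wt w ψ c y * f₀.1 (ψ^[c] y)) := by
    have h1 : Tendsto (fun n => f₀.1 (xs n) * f₀.1 (ψ^[n] (xs n))) U (𝓝 (f₀.1 x * f₀.1 y)) :=
      ((hcont f₀ 0 hxΩ).tendsto.comp hx).mul ((hcont f₀ 0 hyΩ).tendsto.comp hy)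
    have h2 : Tendsto (fun n => (wt w ψ a (xs n) * f₀.1 (ψ^[a] (xs n))) *
        (wt w ψ c (ψ^[n] (xs n)) * f₀.1 (ψ^[c] (ψ^[n] (xs n))))) U
        (𝓝 ((wt w ψ a x * f₀.1 (ψ^[a] x)) * (wt w ψ c y * f₀.1 (ψ^[c] y)))) := by
      refine Tendsto.mul (Tendsto.mul ?_ ?_) (Tendsto.mul ?_ ?_)
      · exact (wt_contDiffAt hG hw hxΩ a).continuousAt.tendsto.comp hx
      · exact (hcont f₀ a hxΩ).tendsto.comp hx
      · exact (wt_contDiffAt hG hw hyΩ c).continuousAt.tendsto.comp hy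
      · exact (hcont f₀ c hyΩ).tendsto.comp hy
    exact tendsto_nhds_unique (h1.congr' hrel) h2
  have hcy : f₀.1 (ψ^[c] y) ≠ 0 := by
    intro h0
    rw [h0, mul_zero, mul_zero] at hlim
    exact mul_ne_zero (hne x (hthK hxK₀)) (hne y (hthK hyK₀)) hlim
  -- invariance of the quotients
  have hinv : ∀ l N, p ∣ N → ∀ z ∈ Ω, (f l).1 z / f₀.1 z = (f l).1 (ψ^[N] z) / f₀.1 (ψ^[N] z) := by
    intro l N hN z hz
    rw [fixed_apply (hf l) hN hz, fixed_apply hf₀ hN hz]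
    exact mul_div_mul_left _ _ (wt_ne_zero hw0 hm hz N)
  have hqcont : ∀ l, ContinuousAt (fun u => (f l).1 (ψ^[c] u) / f₀.1 (ψ^[c] u)) y := fun l =>
    (hcont (f l) c hyΩ).div (hcont f₀ c hyΩ) hcy
  have hqx : ∀ l, (f l).1 x / f₀.1 x = (f l).1 (ψ^[c] y) / f₀.1 (ψ^[c] y) := by
    intro l
    have h1 : Tendsto (fun n => (f l).1 (xs n) / f₀.1 (xs n)) U (𝓝 ((f l).1 x / f₀.1 x)) := by
      have : ContinuousAt (fun u => (f l).1 u / f₀.1 u) x :=
        (hcont (f l) 0 hxΩ).div (hcont f₀ 0 hxΩ) (hne x (hthK hxK₀))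
      exact this.tendsto.comp hx
    have h2 := (hqcont l).tendsto.comp hy
    refine tendsto_nhds_unique (h1.congr' ?_) h2
    filter_upwards [hxK, hUa] with n hn hna
    rw [hinv l (n + c) (hdvd n hna) _ (hK₀Ω hn)]
    simp only [Function.comp_apply]
    rw [add_comm n c, Function.iterate_add_apply]
  set η := δ / (16 * ((d : ℝ) + 1)) with hη
  have hη0 : 0 < η := by positivity
  obtain ⟨r, hr, hball⟩ : ∃ r > 0, ∀ u ∈ Metric.ball y r, u ∈ Ω ∧
      ∀ l, ‖(f l).1 (ψ^[c] u) / f₀.1 (ψ^[c] u) - (f l).1 x / f₀.1 x‖ < η := by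
    have h1 : ∀ᶠ u in 𝓝 y, u ∈ Ω ∧
        ∀ l, ‖(f l).1 (ψ^[c] u) / f₀.1 (ψ^[c] u) - (f l).1 x / f₀.1 x‖ < η := by
      have h1a : ∀ᶠ u in 𝓝 y, u ∈ Ω := hΩ.mem_nhds hyΩ
      refine h1a.and ?_
      rw [eventually_all]
      intro l
      have := Metric.tendsto_nhds.1 (hqcont l).tendsto η hη0
      filter_upwards [this] with u hu
      rw [hqx l, ← dist_eq_norm]
      exact hu
    obtain ⟨r, hr, h2⟩ := Metric.eventually_nhds_iff_ball.1 h1
    exact ⟨r, hr, h2⟩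
  -- the key claim
  have hkey : ∀ᶠ n in (U : Filter ℕ), y ∈ ψ^[n] '' Metric.ball x δ := by
    filter_upwards [hUa, hx (Metric.ball_mem_nhds x hδ), hy (Metric.ball_mem_nhds y hr)]
      with n hna hn1 hn2
    have hbΩ : Metric.closedBall x δ ⊆ Ω := (hballK x hxK₀).trans hthick
    have hsmall : ∀ v ∈ Metric.ball x δ, ψ^[n] v ∈ Metric.ball y r →
        v ∈ Metric.closedBall x (δ / 2) := by
      intro v hv hv'
      have hvΩ : v ∈ Ω := hbΩ (Metric.ball_subset_closedBall hv)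
      have h1 := hsep v (hballK x hxK₀ (Metric.ball_subset_closedBall hv)) x (hthK hxK₀)
      have h2 : ∀ l ∈ Finset.univ, ‖(f l).1 v / f₀.1 v - (f l).1 x / f₀.1 x‖ ≤ η := by
        intro l _
        rw [hinv l (n + c) (hdvd n hna) v hvΩ, add_comm n c, Function.iterate_add_apply]
        exact ((hball _ hv').2 l).le
      have h3 := Finset.sum_le_sum h2
      rw [Finset.sum_const, Finset.card_univ, Fintype.card_fin, nsmul_eq_mul] at h3
      rw [Metric.mem_closedBall, dist_eq_norm]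
      have h4 : (d : ℝ) * η ≤ δ / 16 := by
        rw [hη]
        have h5 : (d : ℝ) * (δ / (16 * ((d : ℝ) + 1))) = δ / 16 * ((d : ℝ) / ((d : ℝ) + 1)) := by
          field_simp
        rw [h5]
        have h6 : (d : ℝ) / ((d : ℝ) + 1) ≤ 1 := by
          rw [div_le_one (by positivity)]
          linarith
        nlinarith
      linarith
    have hopen : IsOpen (ψ^[n] '' Metric.ball x δ) :=
      hG.iter_isOpen n Metric.isOpen_ball (Metric.ball_subset_closedBall.trans hbΩ)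
    have hclosed : IsClosed (ψ^[n] '' Metric.closedBall x (δ / 2)) :=
      (hG.iter_isCompact n (isCompact_closedBall _ _)
        ((Metric.closedBall_subset_closedBall (by linarith)).trans hbΩ)).isClosed
    have hpre : IsPreconnected (Metric.ball y r) := (convex_ball y r).isPreconnected
    by_contra hyn
    have h1 := hpre _ _ hopen hclosed.isOpen_compl (by
      intro u hu
      by_cases h : u ∈ ψ^[n] '' Metric.closedBall x (δ / 2)
      · left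
        exact image_mono (Metric.closedBall_subset_ball (by linarith)) h
      · right
        exact h) ⟨_, hn2, mem_image_of_mem _ hn1⟩ ⟨y, Metric.mem_ball_self hr, fun h =>
          hyn (image_mono (Metric.closedBall_subset_ball (by linarith)) h)⟩
    obtain ⟨_, hu, ⟨v, hv, rfl⟩, hu'⟩ := h1
    exact hu' (mem_image_of_mem _ (hsmall v hv hu))
  -- two returns
  obtain ⟨n, hn, hna⟩ := (hkey.and hUa).exists
  obtain ⟨n', ⟨hn', hna'⟩, hlt⟩ := ((hkey.and hUa).and (hUtop (Ioi_mem_atTop n))).exists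
  obtain ⟨v, hv, hvy⟩ := hn
  obtain ⟨v', hv', hvy'⟩ := hn'
  have hlt' : n < n' := hlt
  have hbΩ : Metric.ball x δ ⊆ Ω :=
    Metric.ball_subset_closedBall.trans ((hballK x hxK₀).trans hthick)
  have hbK : Metric.ball x δ ⊆ Metric.cthickening δ K₀ :=
    Metric.ball_subset_closedBall.trans (hballK x hxK₀)
  have h1 : ψ^[n' - n] v' = v := by
    apply hG.iter_injOn n (iter_mem hm (hbΩ hv') _) (hbΩ hv)
    rw [← Function.iterate_add_apply, hvy, ← hvy']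
    congr 2
    omega
  have h2 : p ∣ n' - n := by
    apply (Nat.modEq_iff_dvd' hlt'.le).1
    rw [Nat.ModEq, hna, hna']
  have h3 : v' = v := by
    have h4 := hsep v' (hbK hv') v (hbK hv)
    have h5 : ∑ l, ‖(f l).1 v' / f₀.1 v' - (f l).1 v / f₀.1 v‖ = 0 := by
      apply Finset.sum_eq_zero
      intro l _
      rw [hinv l _ h2 v' (hbΩ hv'), h1, sub_self, norm_zero]
    rw [h5, mul_zero] at h4
    exact sub_eq_zero.1 (norm_eq_zero.1 (le_antisymm h4 (norm_nonneg _)))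
  rw [← h3] at h1
  exact no_periodic hΩ hT (hbΩ hv') (by omega) h1

end Pool.Agent.R199.WComp
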