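import Pool.Agent.R199.WComp4

/-!
Weighted composition operators on `C^∞(Ω)`: a strongly run-away symbol gives a mixing operator.
-/

set_option autoImplicit false

open Set Filter Topology
open scoped ContDiff

namespace Pool.Agent.R199.WComp

variable {d : ℕ} {𝕜 : Type} [RCLike 𝕜] {Ω : Set (E d)}
variable {w : E d → 𝕜} {ψ : E d → E d} {hw : ContDiffOn ℝ ∞ w Ω}
    {hψ : ContDiffOn ℝ ∞ ψ Ω} {hm : MapsTo ψ Ω Ω}

lemma mem_nhd_of_eventuallyEq {g f : SmoothFun 𝕜 Ω} {K : Set (E d)} (n : ℕ) {ε : ℝ} (hε : 0 < ε)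
    (h : ∀ x ∈ K, g.1 =ᶠ[𝓝 x] f.1) : g ∈ nhd f K n ε := by
  intro x hx k _
  have h1 : (fun y => g.1 y - f.1 y) =ᶠ[𝓝 x] fun _ => (0 : 𝕜) := by
    filter_upwards [h x hx] with y hy
    rw [hy, sub_self]
  rw [(h1.iteratedFDeriv ℝ k).eq_of_nhds]
  rcases Nat.eq_zero_or_pos k with rfl | hk
  · simpa using hε
  · rw [iteratedFDeriv_const_of_ne hk.ne']
    simpa using hε

lemma mixing_of_stronglyRunAway (hG : Good Ω ψ) (hw0 : ∀ x ∈ Ω, w x ≠ 0)
    (hS : StronglyRunAway Ω ψ) : IsMixing (wcomp w ψ hw hψ hm) := by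
  have hΩ := hG.isOpen
  rintro U V hU ⟨f, hfU⟩ hV ⟨g, hgV⟩
  obtain ⟨K₁, hK₁Ω, hK₁, n₁, ε₁, hε₁, hU'⟩ := hU f hfU
  obtain ⟨K₂, hK₂Ω, hK₂, n₂, ε₂, hε₂, hV'⟩ := hV g hgV
  set K := K₁ ∪ K₂ with hKdef
  have hK : IsCompact K := hK₁.union hK₂
  have hKΩ : K ⊆ Ω := union_subset hK₁Ω hK₂Ω
  obtain ⟨δ, hδ, hsub⟩ := hK.exists_cthickening_subset_open hΩ hKΩ
  set K' := Metric.cthickening δ K with hK'
  have hK'c : IsCompact K' := hK.cthickening
  obtain ⟨N, hN⟩ := eventually_atTop.1 (hS K' hsub hK'c)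
  refine ⟨N, fun n hn => ?_⟩
  have hdisj := hN n hn
  have hKint : K ⊆ interior K' := by
    refine (Metric.self_subset_thickening hδ K).trans ?_
    exact Metric.thickening_subset_interior_cthickening δ K
  -- the section
  set s := Function.invFunOn ψ^[n] Ω with hs
  have hsl : ∀ x ∈ Ω, s (ψ^[n] x) = x := fun x hx => (hG.iter_injOn n).leftInvOn_invFunOn hx
  have hs_smooth : ∀ x ∈ Ω, ContDiffAt ℝ ∞ s (ψ^[n] x) := by
    intro x hx
    obtain ⟨e, he⟩ := hG.iter_equiv hx n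
    have hcd := hG.iter_contDiffAt hx n
    have h1 := hcd.to_localInverse he (by simp)
    apply h1.congr_of_eventuallyEq
    have h2 : ∀ᶠ z in 𝓝 x, s (ψ^[n] z) = z := by
      filter_upwards [hΩ.mem_nhds hx] with z hz
      exact hsl z hz
    exact (hcd.hasStrictFDerivAt' he (by simp)).localInverse_unique h2
  -- the function `G`
  set G : E d → 𝕜 := fun y => g.1 (s y) / wt w ψ n (s y) with hGdef
  have hG_smooth : ∀ x ∈ Ω, ContDiffAt ℝ ∞ G (ψ^[n] x) := by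
    intro x hx
    have h1 : ContDiffAt ℝ ∞ (fun z => g.1 z / wt w ψ n z) (s (ψ^[n] x)) := by
      rw [hsl x hx]
      simp only [div_eq_mul_inv]
      exact (contDiffAt_of hΩ g hx).mul
        ((wt_contDiffAt hG hw hx n).inv (wt_ne_zero hw0 hm hx n))
    exact h1.comp _ (hs_smooth x hx)
  -- the cutoff
  have himc : IsClosed (ψ^[n] '' K) := (hG.iter_isCompact n hK hKΩ).isClosed
  have hto : IsOpen (ψ^[n] '' interior K') :=
    hG.iter_isOpen n isOpen_interior (interior_subset.trans hsub)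
  obtain ⟨χ, hχ1, hχ0, -⟩ := exists_contMDiffMap_one_nhds_of_subset_interior
    (modelWithCornersSelf ℝ (E d)) (n := (⊤ : ℕ∞)) himc (t := ψ^[n] '' interior K') (by
      rw [hto.interior_eq]
      exact image_mono hKint)
  have hχs : ContDiff ℝ ∞ χ := contMDiff_iff_contDiff.1 χ.contMDiff
  set H : E d → 𝕜 := fun y => ((χ y : ℝ) : 𝕜) * G y + (1 - ((χ y : ℝ) : 𝕜)) * f.1 y with hH
  have hχs' : ∀ y, ContDiffAt ℝ ∞ (fun y => ((χ y : ℝ) : 𝕜)) y := fun y =>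
    (ofReal_smooth (Ω := univ) hχs).contDiffAt univ_mem
  have hH_smooth : ContDiffOn ℝ ∞ H Ω := by
    intro y hy
    apply ContDiffAt.contDiffWithinAt
    have h2 : ContDiffAt ℝ ∞ (fun y => (1 - ((χ y : ℝ) : 𝕜)) * f.1 y) y :=
      (contDiffAt_const.sub (hχs' y)).mul (contDiffAt_of hΩ f hy)
    by_cases hyA : y ∈ ψ^[n] '' Ω
    · obtain ⟨x, hx, rfl⟩ := hyA
      exact ((hχs' _).mul (hG_smooth x hx)).add h2
    · have h3 : y ∈ (ψ^[n] '' K')ᶜ := fun h => hyA (image_mono hsub h)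
      have h4 : IsOpen (ψ^[n] '' K')ᶜ := (hG.iter_isCompact n hK'c hsub).isClosed.isOpen_compl
      apply h2.congr_of_eventuallyEq
      filter_upwards [h4.mem_nhds h3] with z hz
      have : χ z = 0 := hχ0 z fun h => hz (image_mono interior_subset h)
      simp only [hH, this]
      simp
  set h : SmoothFun 𝕜 Ω := mk' H hH_smooth with hh
  have hhK : ∀ x ∈ K, h.1 =ᶠ[𝓝 x] f.1 := by
    intro x hx
    filter_upwards [isOpen_interior.mem_nhds (hKint hx), hΩ.mem_nhds (hKΩ hx)] with z hz hzΩ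
    rw [hh, mk'_apply _ hzΩ]
    have : χ z = 0 := by
      apply hχ0
      rintro ⟨u, hu, rfl⟩
      exact hdisj u (interior_subset hu) (interior_subset hz)
    simp only [hH, this]
    simp
  have hTK : ∀ x ∈ K, ((wcomp w ψ hw hψ hm)^[n] h).1 =ᶠ[𝓝 x] g.1 := by
    intro x hx
    have hxΩ := hKΩ hx
    have h1 : ∀ᶠ z in 𝓝 (ψ^[n] x), χ z = 1 :=
      eventually_nhdsSet_iff_forall.1 hχ1 _ (mem_image_of_mem _ hx)
    have h2 : ∀ᶠ z in 𝓝 x, χ (ψ^[n] z) = 1 :=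
      (hG.iter_contDiffAt hxΩ n).continuousAt.tendsto.eventually h1
    filter_upwards [h2, hΩ.mem_nhds hxΩ] with z hz hzΩ
    rw [iterate_apply hw hψ hm n h hzΩ, hh, mk'_apply _ (iter_mem hm hzΩ n)]
    simp only [hH, hz, hGdef, hsl z hzΩ]
    have := wt_ne_zero hw0 hm hzΩ n
    field_simp
    simp
  refine ⟨_, ⟨h, hU' ?_, rfl⟩, hV' ?_⟩
  · exact mem_nhd_of_eventuallyEq _ hε₁ fun x hx => hhK x (Or.inl hx)
  · exact mem_nhd_of_eventuallyEq _ hε₂ fun x hx => hTK x (Or.inr hx)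

end Pool.Agent.R199.WComp
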